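import Mathlib
import Pool.Agent.TH325.SI.Z
import Pool.Agent.W677.MarK

/-! Definitions for the sub-Gaussian bounds for `log ψ'`, `ψ ∈ Σ` (strong Marshall conjecture). -/

set_option autoImplicit false
open Complex Filter Topology Set Metric MeasureTheory

namespace Q90.SM

open Pool.Agent.TH325.SI (mn em la)
open Pool.Agent.H713R2 (tc)

/-- `∑ n |c_n|² s^(2n)` -/
noncomputable def S1 (F : ℂ → ℂ) (s : ℝ) : ℝ := ∑' n : ℕ, (n : ℝ) * ‖tc F n‖ ^ 2 * s ^ (2 * n)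

/-- `∑ n² |c_n|² s^(2n)` -/
noncomputable def S2 (F : ℂ → ℂ) (s : ℝ) : ℝ := ∑' n : ℕ, (n : ℝ) ^ 2 * ‖tc F n‖ ^ 2 * s ^ (2 * n)

/-- `(1 - |v|²) v H'(v)` lies in the disc of centre `c` and radius `M`, up to an error `E (1 - |v|²)`. -/
def Hyp (c : ℂ) (M E : ℝ) (H : ℂ → ℂ) : Prop :=
  DifferentiableOn ℂ H (ball 0 1) ∧ H 0 = 0 ∧
  ∀ v ∈ ball (0:ℂ) 1, ‖((1 - ‖v‖ ^ 2 : ℝ) : ℂ) * (v * deriv H v) - c‖ ≤ M + E * (1 - ‖v‖ ^ 2)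

/-- `exp (t H / 2)` -/
noncomputable def FF (t : ℂ) (H : ℂ → ℂ) : ℂ → ℂ := fun v => Complex.exp (t / 2 * H v)

/-- The point `r e^{iθ}`. -/
noncomputable def circ (r θ : ℝ) : ℂ := (r : ℂ) * Complex.exp ((θ : ℂ) * Complex.I)

/-- `ψ ∈ Σ` and `h = log ψ'` (the branch vanishing at infinity). -/
def IsSig (ψ h : ℂ → ℂ) : Prop :=
  DifferentiableOn ℂ ψ {z : ℂ | 1 < ‖z‖} ∧
  Set.InjOn ψ {z : ℂ | 1 < ‖z‖} ∧
  (∃ b : ℂ, Filter.Tendsto (fun z => ψ z - z) (Bornology.cobounded ℂ) (nhds b)) ∧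
  DifferentiableOn ℂ h {z : ℂ | 1 < ‖z‖} ∧
  (∀ z : ℂ, 1 < ‖z‖ → Complex.exp (h z) = deriv ψ z) ∧
  Filter.Tendsto h (Bornology.cobounded ℂ) (nhds 0)

/-- The integral of the question. -/
noncomputable def marshall (a R : ℝ) (h : ℂ → ℂ) : ℝ :=
  (1 / (2 * Real.pi)) * ∫ θ in (0:ℝ)..(2 * Real.pi),
    Real.exp (a * ‖h (circ R θ)‖ ^ 2 / Real.log (R ^ 2 / (R ^ 2 - 1)))

/-- The integral mean of `|ψ' ^ t| = |exp (t h)|`, `t` complex. -/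
noncomputable def pmean (t : ℂ) (R : ℝ) (h : ℂ → ℂ) : ℝ :=
  (1 / (2 * Real.pi)) * ∫ θ in (0:ℝ)..(2 * Real.pi), ‖Complex.exp (t * h (circ R θ))‖

/-- The Schwarzian derivative. -/
noncomputable def schw (ψ : ℂ → ℂ) (z : ℂ) : ℂ :=
  deriv (fun w => deriv (deriv ψ) w / deriv ψ w) z - (deriv (deriv ψ) z / deriv ψ z) ^ 2 / 2

/-- A holomorphic family `Ψ λ`, `|λ| < 1`, in the class `Σ`, with `Ψ 0 = id` (a normalised holomorphic motion of the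
exterior disc). -/
def IsFam (Ψ : ℂ → ℂ → ℂ) : Prop :=
  (∀ l ∈ ball (0:ℂ) 1, ∃ h : ℂ → ℂ, IsSig (Ψ l) h) ∧
  (∀ z : ℂ, 1 < ‖z‖ → DifferentiableOn ℂ (fun l => Ψ l z) (ball 0 1)) ∧
  (∀ z : ℂ, 1 < ‖z‖ → Ψ 0 z = z)

end Q90.SM
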