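import Mathlib
import Pool.Agent.Q90.SM.Def

/-! Statements of the lemmas. -/

set_option autoImplicit false
open Complex Filter Topology Set Metric MeasureTheory

namespace Q90.SM

open Pool.Agent.TH325.SI (mn em la)
open Pool.Agent.H713R2 (tc)

/-- termwise differentiation -/
def S_ana1 : Prop := ∀ F : ℂ → ℂ, DifferentiableOn ℂ F (ball 0 1) → ∀ s : ℝ, 0 < s → s < 1 →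
  HasDerivAt (mn F) (2 / s * S1 F s) s ∧ HasDerivAt (S1 F) (2 / s * S2 F s) s

def S_ana2 : Prop := ∀ F : ℂ → ℂ, DifferentiableOn ℂ F (ball 0 1) → ∀ s : ℝ, 0 < s → s < 1 →
  S2 F s = s ^ 2 * mn (deriv F) s ∧ 0 ≤ S1 F s ∧ S1 F s ≤ S2 F s

def S_ana3 : Prop := ∀ F : ℂ → ℂ, DifferentiableOn ℂ F (ball 0 1) → ∀ s : ℝ, 0 < s → s < 1 →
  ((S1 F s : ℝ) : ℂ) = ((2 * Real.pi : ℝ) : ℂ)⁻¹ * ∫ θ in (0:ℝ)..(2 * Real.pi),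
    (starRingEnd ℂ) (F (circleMap 0 s θ)) * (circleMap 0 s θ * deriv F (circleMap 0 s θ))

/-- the differential inequality -/
def S_star : Prop := ∀ (c : ℂ) (M E : ℝ) (H : ℂ → ℂ), 0 ≤ M → 0 ≤ E → Hyp c M E H → ∀ (t : ℂ) (s : ℝ), 0 < s → s < 1 →
  (1 - s ^ 2) ^ 2 * S2 (FF t H) s ≤ ‖t‖ ^ 2 / 4 * ((M + E * (1 - s ^ 2)) ^ 2 - ‖c‖ ^ 2) * mn (FF t H) s +
    (1 - s ^ 2) * (c * t).re * S1 (FF t H) s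

/-- the comparison lemma -/
def S_ode : Prop := ∀ M E C : ℝ, 0 ≤ M → 0 ≤ E → M ^ 2 / 4 < C → ∃ s0 : ℝ, 0 < s0 ∧ s0 < 1 ∧
  ∀ B : ℝ, 0 ≤ B → ∃ K : ℝ, 0 ≤ K ∧ ∀ T γ d : ℝ, 0 < T → 0 ≤ γ → d ≤ γ * T → ∀ P N1 N2 : ℝ → ℝ,
    (∀ s : ℝ, s0 ≤ s → s < 1 → 0 < P s ∧ HasDerivAt P (2 / s * N1 s) s ∧ HasDerivAt N1 (2 / s * N2 s) s ∧
      (1 - s ^ 2) ^ 2 * N2 s ≤ T ^ 2 / 4 * ((M + E * (1 - s ^ 2)) ^ 2 - γ ^ 2) * P s + (1 - s ^ 2) * d * N1 s) →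
    N1 s0 ≤ T ^ 2 * B * P s0 →
    ∀ s : ℝ, s0 ≤ s → s < 1 → P s ≤ P s0 * Real.exp (T ^ 2 * (C * la s + K))

/-- small circles -/
def S_small : Prop := ∀ (H : ℂ → ℂ), DifferentiableOn ℂ H (ball 0 1) → H 0 = 0 → ∀ B s : ℝ, 0 ≤ B → 0 < s → s < 1 →
  (∀ v : ℂ, ‖v‖ ≤ s → ‖deriv H v‖ ≤ B) → ∀ t : ℂ,
    S1 (FF t H) s ≤ ‖t‖ ^ 2 * (B ^ 2 / 4) * mn (FF t H) s ∧ mn (FF t H) s ≤ Real.exp (‖t‖ ^ 2 * B ^ 2)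

def S_hp : Prop := ∀ (c : ℂ) (M E r : ℝ), 0 ≤ r → r < 1 → ∃ B : ℝ, 0 ≤ B ∧ ∀ H : ℂ → ℂ, Hyp c M E H →
  ∀ v : ℂ, ‖v‖ ≤ r → ‖deriv H v‖ ≤ B

/-- the exponential bound for all complex `t` -/
def S_expo : Prop := ∀ (c : ℂ) (M E C : ℝ), 0 ≤ M → 0 ≤ E → M ^ 2 / 4 < C → ∃ K : ℝ, 0 ≤ K ∧
  ∀ H : ℂ → ℂ, Hyp c M E H → ∀ (t : ℂ) (s : ℝ), 0 < s → s < 1 → mn (FF t H) s ≤ Real.exp (‖t‖ ^ 2 * (C * la s + K))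

/-- the Gaussian integral -/
def S_gauss : Prop := ∀ (w : ℂ) (b : ℝ), 0 < b →
  ∫⁻ t : ℂ, ENNReal.ofReal (Real.exp ((t * w).re - b * ‖t‖ ^ 2)) = ENNReal.ofReal (Real.pi / b * Real.exp (‖w‖ ^ 2 / (4 * b)))

/-- the Gaussian average -/
def S_gavg : Prop := ∀ (H : ℂ → ℂ), DifferentiableOn ℂ H (ball 0 1) → ∀ s : ℝ, 0 < s → s < 1 → ∀ K D b : ℝ, 0 ≤ K → D < b → 0 < b →
  (∀ t : ℂ, mn (FF t H) s ≤ K * Real.exp (D * ‖t‖ ^ 2)) → em H (1 / (4 * b)) s ≤ K * b / (b - D)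

/-- **the key theorem** -/
def S_key : Prop := ∀ (c : ℂ) (M E a : ℝ), 0 ≤ M → 0 ≤ E → 0 < a → a * M ^ 2 < 1 → ∃ C : ℝ,
  ∀ H : ℂ → ℂ, Hyp c M E H → ∀ s : ℝ, 0 < s → s < 1 → em H (a / la s) s ≤ C

/-- Schwarz-Pick in a disc containing `0` off its centre -/
def S_pick : Prop := ∀ (C₀ R₀ : ℝ), 0 < R₀ → |C₀| < R₀ → ∀ V : ℂ → ℂ, DifferentiableOn ℂ V (ball 0 1) → V 0 = 0 →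
  (∀ l ∈ ball (0:ℂ) 1, ‖V l - C₀‖ ≤ R₀) → ∀ (l : ℂ) (k : ℝ), ‖l‖ ≤ k → k < 1 →
    ‖V l - ((k ^ 2 * (R₀ ^ 2 - C₀ ^ 2) * C₀ / (R₀ ^ 2 - k ^ 2 * C₀ ^ 2) : ℝ) : ℂ)‖ ≤
      k * (R₀ ^ 2 - C₀ ^ 2) * R₀ / (R₀ ^ 2 - k ^ 2 * C₀ ^ 2)

/-- holomorphic dependence of `h_λ'` on `λ` -/
def S_fam : Prop := ∀ (Ψ : ℂ → ℂ → ℂ), IsFam Ψ → ∀ h : ℂ → ℂ → ℂ, (∀ l ∈ ball (0:ℂ) 1, IsSig (Ψ l) (h l)) →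
  ∀ z : ℂ, 1 < ‖z‖ → DifferentiableOn ℂ (fun l => deriv (h l) z) (ball 0 1) ∧ deriv (h 0) z = 0

/-- the invariant disc -/
def S_inv : Prop := ∀ (α k : ℝ), 0 < α → α ≤ Real.pi / 4 → 0 ≤ k → k ≤ Real.sin (2 * α) → ∀ W W' τ : ℝ → ℂ,
  (∀ s : ℝ, 0 < s → s < 1 → HasDerivAt W (W' s) s ∧ ‖τ s‖ ≤ 2 * k * s ^ 2 ∧
    ((s * (1 - s ^ 2) : ℝ) : ℂ) * W' s = -((1 + s ^ 2 : ℝ) : ℂ) * W s + W s ^ 2 / 2 + τ s) →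
  Tendsto W (𝓝[>] 0) (𝓝 0) →
  ∀ s : ℝ, 0 < s → s < 1 → ‖W s - ((2 * (1 - Real.cos α) : ℝ) : ℂ)‖ ≤ 2 * Real.sin α

/-- the Riccati equation along the rays -/
def S_schw : Prop := ∀ ψ h : ℂ → ℂ, IsSig ψ h → ∀ k : ℝ, 0 ≤ k →
  (∀ z : ℂ, 1 < ‖z‖ → (‖z‖ ^ 2 - 1) ^ 2 * ‖schw ψ z‖ ≤ 2 * k) → ∀ η : ℂ, ‖η‖ = 1 →
  ∃ W' τ : ℝ → ℂ, (∀ s : ℝ, 0 < s → s < 1 →
    HasDerivAt (fun s : ℝ => ((1 - s ^ 2 : ℝ) : ℂ) * ((s : ℂ) * η * deriv (Pool.Agent.W677.Mar.hat h 0) ((s : ℂ) * η))) (W' s) s ∧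
    ‖τ s‖ ≤ 2 * k * s ^ 2 ∧
    ((s * (1 - s ^ 2) : ℝ) : ℂ) * W' s =
      -((1 + s ^ 2 : ℝ) : ℂ) * (((1 - s ^ 2 : ℝ) : ℂ) * ((s : ℂ) * η * deriv (Pool.Agent.W677.Mar.hat h 0) ((s : ℂ) * η))) +
      (((1 - s ^ 2 : ℝ) : ℂ) * ((s : ℂ) * η * deriv (Pool.Agent.W677.Mar.hat h 0) ((s : ℂ) * η))) ^ 2 / 2 + τ s) ∧
  Tendsto (fun s : ℝ => ((1 - s ^ 2 : ℝ) : ℂ) * ((s : ℂ) * η * deriv (Pool.Agent.W677.Mar.hat h 0) ((s : ℂ) * η))) (𝓝[>] 0) (𝓝 0)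

/-- from the disc to the exterior -/
def S_ext : Prop := ∀ ψ h : ℂ → ℂ, IsSig ψ h → Pool.Agent.W677.Mar.Sg (Pool.Agent.W677.Mar.hat (fun z => ψ z / z) 1) (Pool.Agent.W677.Mar.hat h 0) ∧
  (∀ a R : ℝ, 1 < R → marshall a R h = em (Pool.Agent.W677.Mar.hat h 0) (a / la R⁻¹) R⁻¹) ∧
  (∀ (t : ℂ) (R : ℝ), 1 < R → pmean t R h = mn (FF t (Pool.Agent.W677.Mar.hat h 0)) R⁻¹)

/-- tails to the integral -/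
def S_tail : Prop := ∀ (f : ℝ → ℝ), Continuous f → (∀ θ, 0 ≤ f θ) → ∀ a b K L : ℝ, 0 < a → a < b → 0 ≤ K → 0 < L →
  (∀ u : ℝ, 0 ≤ u → volume {θ : ℝ | θ ∈ Ioc 0 (2 * Real.pi) ∧ u * L < f θ} ≤ ENNReal.ofReal (2 * Real.pi * K * Real.exp (-b * u ^ 2 * L))) →
  (1 / (2 * Real.pi)) * ∫ θ in (0:ℝ)..(2 * Real.pi), Real.exp (a * f θ ^ 2 / L) ≤ 1 + K * a / (b - a)

/-- the integral to tails -/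
def S_mark : Prop := ∀ (f : ℝ → ℝ), Continuous f → (∀ θ, 0 ≤ f θ) → ∀ a C L : ℝ, 0 < a → 0 < L →
  (1 / (2 * Real.pi)) * ∫ θ in (0:ℝ)..(2 * Real.pi), Real.exp (a * f θ ^ 2 / L) ≤ C →
  ∀ u : ℝ, 0 ≤ u → volume {θ : ℝ | θ ∈ Ioc 0 (2 * Real.pi) ∧ u * L < f θ} ≤ ENNReal.ofReal (2 * Real.pi * C * Real.exp (-a * u ^ 2 * L))

/-- moments -/
def S_mom : Prop := ∀ (f : ℝ → ℝ), Continuous f → (∀ θ, 0 ≤ f θ) → ∀ L : ℝ, 0 < L →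
  (∀ a C : ℝ, 0 < a → (1 / (2 * Real.pi)) * ∫ θ in (0:ℝ)..(2 * Real.pi), Real.exp (a * f θ ^ 2 / L) ≤ C →
    ∀ n : ℕ, (1 / (2 * Real.pi)) * ∫ θ in (0:ℝ)..(2 * Real.pi), f θ ^ (2 * n) ≤ C * n.factorial * (L / a) ^ n) ∧
  (∀ a b K : ℝ, 0 < a → a < b → 0 ≤ K →
    (∀ n : ℕ, (1 / (2 * Real.pi)) * ∫ θ in (0:ℝ)..(2 * Real.pi), f θ ^ (2 * n) ≤ K * n.factorial * (L / b) ^ n) →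
    (1 / (2 * Real.pi)) * ∫ θ in (0:ℝ)..(2 * Real.pi), Real.exp (a * f θ ^ 2 / L) ≤ K * b / (b - a))

end Q90.SM
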