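import Mathlib
import Pool.Agent.Q90.SM.Stm

/-! Assembly of the key theorem. -/

set_option autoImplicit false
open Complex Filter Topology Set Metric MeasureTheory

namespace Q90.SM

open Pool.Agent.TH325.SI (mn em la la_nonneg cm_mem norm_cm cont_cm mean_eq la_pos)
open Pool.Agent.H713R2 (tc)

theorem dFF {H : ℂ → ℂ} (hH : DifferentiableOn ℂ H (ball 0 1)) (t : ℂ) : DifferentiableOn ℂ (FF t H) (ball 0 1) := by
  unfold FF
  exact (hH.const_mul _).cexp

theorem mn_FF_pos {H : ℂ → ℂ} (hH : DifferentiableOn ℂ H (ball 0 1)) (t : ℂ) {s : ℝ} (h0 : 0 < s) (h1 : s < 1) :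
    0 < mn (FF t H) s := by
  unfold mn
  have hpi := Real.pi_pos
  apply mul_pos (by positivity)
  apply intervalIntegral.intervalIntegral_pos_of_pos
  · exact ((cont_cm (dFF hH t) h0 h1).norm.pow 2).intervalIntegrable _ _
  · intro θ
    have : FF t H (circleMap 0 s θ) ≠ 0 := Complex.exp_ne_zero _
    positivity
  · positivity

theorem expo (h1 : S_ana1) (hs : S_star) (ho : S_ode) (hsm : S_small) (hp : S_hp) : S_expo := by
  intro c M E C hM hE hC
  have hC0 : 0 ≤ C := by nlinarith [sq_nonneg M]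
  obtain ⟨s0, hs0, hs1, hod⟩ := ho M E C hM hE hC
  obtain ⟨B, hB, hBH⟩ := hp c M E s0 hs0.le hs1
  obtain ⟨K0, hK0, hode⟩ := hod (B ^ 2 / 4) (by positivity)
  refine ⟨K0 + B ^ 2, by positivity, ?_⟩
  intro H hH t s s_pos s_lt
  have hla := la_nonneg s_pos s_lt
  rcases le_or_gt s s0 with h | h
  · have h3 := (hsm H hH.1 hH.2.1 B s hB s_pos s_lt (fun v hv => hBH H hH v (hv.trans h)) t).2
    refine h3.trans (Real.exp_le_exp.2 ?_)
    have : B ^ 2 ≤ C * la s + (K0 + B ^ 2) := by nlinarith [mul_nonneg hC0 hla]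
    gcongr
  · by_cases ht : t = 0
    · have h4 : mn (FF t H) s = 1 := by
        unfold mn FF
        rw [ht]
        simp
        have := Real.pi_pos
        field_simp
      rw [h4, ht]
      simp
    · have hT : 0 < ‖t‖ := norm_pos_iff.2 ht
      have h5 := hsm H hH.1 hH.2.1 B s0 hB hs0 hs1 (fun v hv => hBH H hH v hv) t
      have h6 := hode ‖t‖ ‖c‖ (c * t).re hT (norm_nonneg c) (by
        calc (c * t).re ≤ ‖c * t‖ := Complex.re_le_norm _
          _ = ‖c‖ * ‖t‖ := norm_mul _ _) (mn (FF t H)) (S1 (FF t H)) (S2 (FF t H)) (by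
        intro r hr hr1
        have hr0 : 0 < r := lt_of_lt_of_le hs0 hr
        have h7 := h1 (FF t H) (dFF hH.1 t) r hr0 hr1
        exact ⟨mn_FF_pos hH.1 t hr0 hr1, h7.1, h7.2, hs c M E H hM hE hH t r hr0 hr1⟩) h5.1 s h.le s_lt
      refine h6.trans ?_
      calc mn (FF t H) s0 * Real.exp (‖t‖ ^ 2 * (C * la s + K0))
          ≤ Real.exp (‖t‖ ^ 2 * B ^ 2) * Real.exp (‖t‖ ^ 2 * (C * la s + K0)) := by
            gcongr
            exact h5.2
        _ = _ := by
            rw [← Real.exp_add]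
            congr 1
            ring

theorem H_le {H : ℂ → ℂ} (hH : DifferentiableOn ℂ H (ball 0 1)) (h0 : H 0 = 0) {B r : ℝ} (hr : r < 1)
    (hB : ∀ v : ℂ, ‖v‖ ≤ r → ‖deriv H v‖ ≤ B) {v : ℂ} (hv : ‖v‖ ≤ r) : ‖H v‖ ≤ B * ‖v‖ := by
  have hr0 : 0 ≤ r := (norm_nonneg v).trans hv
  have h1 : ∀ x ∈ closedBall (0:ℂ) r, DifferentiableAt ℂ H x := by
    intro x hx
    apply hH.differentiableAt
    apply isOpen_ball.mem_nhds
    rw [mem_ball_zero_iff]
    rw [mem_closedBall_zero_iff] at hx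
    linarith
  have h2 := Convex.norm_image_sub_le_of_norm_deriv_le (f := H) (s := closedBall (0:ℂ) r) (x := 0) (y := v) (C := B) h1
    (fun x hx => hB x (mem_closedBall_zero_iff.1 hx)) (convex_closedBall 0 r) (mem_closedBall_self hr0) (mem_closedBall_zero_iff.2 hv)
  rw [h0, sub_zero, sub_zero] at h2
  exact h2

theorem la_ge_sq {s : ℝ} (h0 : 0 < s) (h1 : s < 1) : s ^ 2 ≤ la s := by
  unfold la
  have h2 : 0 < 1 - s ^ 2 := by nlinarith
  have := Real.log_le_sub_one_of_pos h2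
  linarith

theorem em_small {H : ℂ → ℂ} (hH : DifferentiableOn ℂ H (ball 0 1)) (h0 : H 0 = 0) {B r : ℝ} (hr : r < 1) (hB0 : 0 ≤ B)
    (hB : ∀ v : ℂ, ‖v‖ ≤ r → ‖deriv H v‖ ≤ B) {a s : ℝ} (ha : 0 < a) (hs : 0 < s) (hsr : s ≤ r) :
    em H (a / la s) s ≤ Real.exp (a * B ^ 2) := by
  have hpi := Real.pi_pos
  have hpi0 : (0:ℝ) ≤ 2 * Real.pi := by positivity
  have hs1 : s < 1 := by linarith
  have hl := la_pos hs hs1
  have hl2 := la_ge_sq hs hs1
  have h3 : ∫ θ in (0:ℝ)..(2 * Real.pi), Real.exp (a / la s * ‖H (circleMap 0 s θ)‖ ^ 2) ≤ ∫ θ in (0:ℝ)..(2 * Real.pi), Real.exp (a * B ^ 2) := by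
    apply intervalIntegral.integral_mono_on hpi0
    · have := (cont_cm hH hs hs1).norm.pow 2
      exact (Real.continuous_exp.comp (continuous_const.mul this)).intervalIntegrable _ _
    · simp
    · intro θ _
      apply Real.exp_le_exp.2
      have h4 := H_le hH h0 hr hB (v := circleMap 0 s θ) (by rw [norm_cm hs]; exact hsr)
      rw [norm_cm hs] at h4
      have h6 : ‖H (circleMap 0 s θ)‖ ^ 2 ≤ (B * s) ^ 2 := by gcongr
      calc a / la s * ‖H (circleMap 0 s θ)‖ ^ 2 ≤ a / la s * (B * s) ^ 2 := by gcongr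
        _ = a * B ^ 2 * (s ^ 2 / la s) := by ring
        _ ≤ a * B ^ 2 * 1 := by
            gcongr
            rw [div_le_one hl]
            exact hl2
        _ = _ := mul_one _
  unfold Pool.Agent.TH325.SI.em
  calc (2 * Real.pi)⁻¹ * ∫ θ in (0:ℝ)..(2 * Real.pi), Real.exp (a / la s * ‖H (circleMap 0 s θ)‖ ^ 2)
      ≤ (2 * Real.pi)⁻¹ * ∫ θ in (0:ℝ)..(2 * Real.pi), Real.exp (a * B ^ 2) := by
        apply mul_le_mul_of_nonneg_left h3 (by positivity)
    _ = _ := by
        simp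
        field_simp

/-- From exponential bounds to the exponential integral of the square. -/
theorem em_of_expo (hg : S_gavg) {H : ℂ → ℂ} (hH : DifferentiableOn ℂ H (ball 0 1)) {a C K Q s : ℝ} (ha : 0 < a) (haC : 4 * a * C < 1)
    (hQ : 0 ≤ Q) (hs : 0 < s) (hs1 : s < 1)
    (hb : ∀ t : ℂ, mn (FF t H) s ≤ Q * Real.exp (‖t‖ ^ 2 * (C * la s + K))) (hL : 8 * a * K ≤ (1 - 4 * a * C) * la s) :
    em H (a / la s) s ≤ Q * (2 / (1 - 4 * a * C)) := by
  have hl := la_pos hs hs1
  have hω : 0 < 1 - 4 * a * C := by linarith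
  have hpos : 0 < (1 - 4 * a * C) * la s := mul_pos hω hl
  have hD : C * la s + K < la s / (4 * a) := by
    rw [lt_div_iff₀ (by positivity)]
    nlinarith
  have h2 := hg H hH s hs hs1 Q (C * la s + K) (la s / (4 * a)) hQ hD (by positivity) (fun t => by
    have := hb t
    rwa [mul_comm (‖t‖ ^ 2)] at this)
  have e1 : 1 / (4 * (la s / (4 * a))) = a / la s := by field_simp
  rw [e1] at h2
  refine h2.trans ?_
  rw [mul_div_assoc]
  apply mul_le_mul_of_nonneg_left _ hQ
  rw [div_le_div_iff₀ (by linarith) hω]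
  have e3 : 2 * (la s / (4 * a) - (C * la s + K)) - la s / (4 * a) * (1 - 4 * a * C) =
      ((1 - 4 * a * C) * la s - 8 * a * K) / (4 * a) := by
    field_simp
    ring
  have e2 : 0 ≤ ((1 - 4 * a * C) * la s - 8 * a * K) / (4 * a) := by
    apply div_nonneg _ (by positivity)
    linarith
  linarith

theorem key (he : S_expo) (hp : S_hp) (hg : S_gavg) : S_key := by
  intro c M E a hM hE ha haM
  set C : ℝ := (M ^ 2 / 4 + 1 / (4 * a)) / 2 with hCdef
  have hlt : M ^ 2 / 4 < 1 / (4 * a) := by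
    rw [div_lt_div_iff₀ (by norm_num) (by positivity)]
    nlinarith
  have hC1 : M ^ 2 / 4 < C := by rw [hCdef]; linarith
  have hC2 : C < 1 / (4 * a) := by rw [hCdef]; linarith
  have haC : 4 * a * C < 1 := by
    rw [lt_div_iff₀ (by positivity)] at hC2
    linarith
  have hω : 0 < 1 - 4 * a * C := by linarith
  obtain ⟨K, hK, hexp⟩ := he c M E C hM hE hC1
  set L1 : ℝ := 8 * a * K / (1 - 4 * a * C) with hL1
  have hL10 : 0 ≤ L1 := by positivity
  have he1 : Real.exp (-L1) ≤ 1 := by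
    rw [Real.exp_le_one_iff]; linarith
  have hep := Real.exp_pos (-L1)
  set s1 : ℝ := Real.sqrt (1 - Real.exp (-L1)) with hs1
  have hs10 : 0 ≤ s1 := Real.sqrt_nonneg _
  have hs1sq : s1 ^ 2 = 1 - Real.exp (-L1) := Real.sq_sqrt (by linarith)
  have hs11 : s1 < 1 := by nlinarith
  obtain ⟨B, hB, hBH⟩ := hp c M E s1 hs10 hs11
  refine ⟨max (Real.exp (a * B ^ 2)) (1 * (2 / (1 - 4 * a * C))), ?_⟩
  intro H hH s hs hs2
  rcases le_or_gt s s1 with h | h
  · exact (em_small hH.1 hH.2.1 hs11 hB (fun v hv => hBH H hH v hv) ha hs h).trans (le_max_left _ _)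
  · refine (em_of_expo hg hH.1 ha haC zero_le_one hs hs2 (K := K) (fun t => ?_) ?_).trans (le_max_right _ _)
    · rw [one_mul]
      exact hexp H hH t s hs hs2
    · have h3 : L1 ≤ la s := by
        have h4 : la s1 = L1 := by
          unfold la
          rw [hs1sq]
          ring_nf
          rw [Real.log_exp]
          ring
        rw [← h4]
        unfold la
        apply neg_le_neg
        apply Real.log_le_log (by nlinarith)
        nlinarith
      have h5 : (1 - 4 * a * C) * L1 = 8 * a * K := by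
        rw [hL1]
        field_simp
      rw [← h5]
      gcongr

end Q90.SM
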