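import Pool.Agent.Q90.SM.OdeT

/-!
# Every map of the class `Σ`, `a < (2 - √3)/4`
-/

set_option autoImplicit false

open Complex Filter Topology Set Metric MeasureTheory

namespace Q90.SM

open Pool.Agent.TH325.SI (mn em la la_nonneg cm_mem norm_cm cont_cm mean_eq la_pos)
open Pool.Agent.W677.Mar (hat Sg Hol kbound goluzin)

/-- the exponential bound for complex `t`, `‖t‖ ≤ T0` -/
theorem expoT (c : ℂ) (M E C δ T0 : ℝ) (hM : 0 ≤ M) (hE : 0 ≤ E) (hC : 0 < C) (hδ0 : 0 < δ) (hT0 : ‖c‖ * T0 ≤ 1 / 4)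
    (hCT : ∀ T : ℝ, 0 < T → T ≤ T0 → (M ^ 2 - ‖c‖ ^ 2) / 4 + δ ≤ C * (1 - ‖c‖ * T + C * T ^ 2)) :
    ∃ K : ℝ, 0 ≤ K ∧ ∀ H : ℂ → ℂ, Hyp c M E H → ∀ (t : ℂ) (s : ℝ), ‖t‖ ≤ T0 → 0 < s → s < 1 →
      mn (FF t H) s ≤ Real.exp (‖t‖ ^ 2 * (C * la s + K)) := by
  obtain ⟨s0, hs0, hs1, hod⟩ := odeT M E C δ hM hE hC hδ0
  obtain ⟨B, hB, hBH⟩ := hp c M E s0 hs0.le hs1
  obtain ⟨K0, hK0, hode⟩ := hod (B ^ 2 / 4) (by positivity)
  refine ⟨K0 + B ^ 2, by positivity, ?_⟩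
  intro H hH t s htT s_pos s_lt
  have hla := la_nonneg s_pos s_lt
  rcases le_or_gt s s0 with h | h
  · have h3 := (small_all H hH.1 hH.2.1 B s hB s_pos s_lt (fun v hv => hBH H hH v (hv.trans h)) t).2
    refine h3.trans (Real.exp_le_exp.2 ?_)
    have : B ^ 2 ≤ C * la s + (K0 + B ^ 2) := by nlinarith [mul_nonneg hC.le hla]
    gcongr
  · by_cases ht : t = 0
    · have h4 : mn (FF t H) s = 1 := by
        unfold mn FF
        rw [ht]
        simp
        have := Real.pi_pos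
        field_simp
      rw [h4, ht]
      simp
    · have hT : 0 < ‖t‖ := norm_pos_iff.2 ht
      have h5 := small_all H hH.1 hH.2.1 B s0 hB hs0 hs1 (fun v hv => hBH H hH v hv) t
      have hcT : ‖c‖ * ‖t‖ ≤ 1 / 4 := (mul_le_mul_of_nonneg_left htT (norm_nonneg c)).trans hT0
      have h6 := hode ‖t‖ ‖c‖ (c * t).re hT (norm_nonneg c) hcT (by
        calc (c * t).re ≤ ‖c * t‖ := Complex.re_le_norm _
          _ = ‖c‖ * ‖t‖ := norm_mul _ _) (hCT ‖t‖ hT htT) (mn (FF t H)) (S1 (FF t H)) (S2 (FF t H)) (by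
        intro r hr hr1
        have hr0 : 0 < r := lt_of_lt_of_le hs0 hr
        have h7 := Q275.SM.ana1 (FF t H) (dFF hH.1 t) r hr0 hr1
        exact ⟨mn_FF_pos hH.1 t hr0 hr1, h7.1, h7.2, star_all c M E H hM hE hH t r hr0 hr1⟩) h5.1 s h.le s_lt
      refine h6.trans ?_
      calc mn (FF t H) s0 * Real.exp (‖t‖ ^ 2 * (C * la s + K0))
          ≤ Real.exp (‖t‖ ^ 2 * B ^ 2) * Real.exp (‖t‖ ^ 2 * (C * la s + K0)) := by
            gcongr
            exact h5.2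
        _ = _ := by
            rw [← Real.exp_add]
            congr 1
            ring

/-- from `‖t‖ ≤ T0` to all `t` by a pointwise bound -/
theorem mn_shift {H : ℂ → ℂ} (hH : DifferentiableOn ℂ H (ball 0 1)) {s G : ℝ} (h0 : 0 < s) (h1 : s < 1)
    (hG : ∀ θ : ℝ, ‖H (circleMap 0 s θ)‖ ≤ G) (t : ℂ) (T0 : ℝ) (hT0 : 0 ≤ T0) (ht : T0 ≤ ‖t‖) (ht0 : 0 < ‖t‖) :
    mn (FF t H) s ≤ Real.exp ((‖t‖ - T0) * G) * mn (FF (((T0 / ‖t‖ : ℝ) : ℂ) * t) H) s := by
  have hpi := Real.pi_pos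
  unfold Pool.Agent.TH325.SI.mn
  rw [← mul_assoc, mul_comm (Real.exp _), mul_assoc]
  apply mul_le_mul_of_nonneg_left _ (by positivity)
  rw [← intervalIntegral.integral_const_mul]
  apply intervalIntegral.integral_mono_on (by positivity)
  · exact ((cont_cm (dFF hH t) h0 h1).norm.pow 2).intervalIntegrable _ _
  · exact (continuous_const.mul ((cont_cm (dFF hH _) h0 h1).norm.pow 2)).intervalIntegrable _ _
  · intro θ _
    set w := H (circleMap 0 s θ) with hw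
    have e1 : ∀ τ : ℂ, ‖FF τ H (circleMap 0 s θ)‖ ^ 2 = Real.exp ((τ * w).re) := by
      intro τ
      unfold FF
      rw [Complex.norm_exp, sq, ← Real.exp_add, ← hw]
      congr 1
      have : τ / 2 * w = (τ * w) / 2 := by ring
      rw [this]
      have h3 : (τ * w / 2).re = (τ * w).re / 2 := by
        rw [show (2:ℂ) = ((2:ℝ):ℂ) by norm_num, Complex.div_ofReal_re]
      rw [h3]
      ring
    rw [e1, e1, ← Real.exp_add]
    apply Real.exp_le_exp.2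
    have e2 : (((T0 / ‖t‖ : ℝ) : ℂ) * t * w).re = T0 / ‖t‖ * (t * w).re := by
      rw [mul_assoc, Complex.re_ofReal_mul]
    rw [e2]
    have h4 : (t * w).re ≤ ‖t‖ * G := by
      calc (t * w).re ≤ ‖t * w‖ := Complex.re_le_norm _
        _ = ‖t‖ * ‖w‖ := norm_mul _ _
        _ ≤ ‖t‖ * G := by gcongr; exact hG θ
    have h5 : 0 ≤ 1 - T0 / ‖t‖ := by
      rw [sub_nonneg, div_le_one ht0]
      exact ht
    have h6 : (1 - T0 / ‖t‖) * (t * w).re ≤ (1 - T0 / ‖t‖) * (‖t‖ * G) := mul_le_mul_of_nonneg_left h4 h5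
    have e3 : (1 - T0 / ‖t‖) * (‖t‖ * G) = (‖t‖ - T0) * G := by
      field_simp
    linarith

theorem sharp (a : ℝ) (ha : 0 < a) (ha1 : a < (2 - Real.sqrt 3) / 4) : ∃ C : ℝ, ∀ R : ℝ, 1 < R →
    ∀ ψ h : ℂ → ℂ, IsSig ψ h → marshall a R h ≤ C := by
  have h3 : Real.sqrt 3 ^ 2 = 3 := Real.sq_sqrt (by norm_num)
  have h3n := Real.sqrt_nonneg 3
  have h3l : 1.7 < Real.sqrt 3 := by nlinarith
  have h3u : Real.sqrt 3 < 1.75 := by nlinarith
  -- the constant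
  obtain ⟨C, hC1, hC2⟩ : ∃ C : ℝ, 16 * Real.sqrt 3 - 24 < C ∧ C < min (8 - 64 * a) 4 :=
    exists_between (lt_min (by linarith) (by linarith))
  have hC3 : C < 8 - 64 * a := lt_of_lt_of_le hC2 (min_le_left _ _)
  have hC4 : C < 4 := lt_of_lt_of_le hC2 (min_le_right _ _)
  have hC0 : 0 < C := by linarith
  have h8C : 0 < 8 - C := by linarith
  have hδ : 0 < C * (3 / 4 + C / 64) - 3 := by nlinarith
  obtain ⟨K, hK, hexp⟩ := expoT 2 4 2 C (C * (3 / 4 + C / 64) - 3) (1 / 8) (by norm_num) (by norm_num) hC0 hδ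
    (by norm_num) (by
      intro T hT hT8
      have e : ‖(2:ℂ)‖ = 2 := by norm_num
      rw [e]
      have h5 : 0 ≤ (1 / 8 - T) * (2 - C * (1 / 8 + T)) := by
        apply mul_nonneg (by linarith)
        nlinarith
      nlinarith [mul_nonneg hC0.le h5])
  have hc0 : 0 < 16 / (8 - C) := by positivity
  have hac : 4 * a * (16 / (8 - C)) < 1 := by
    rw [← mul_div_assoc, div_lt_one h8C]
    linarith
  -- the bound for all `t`
  have hall : ∀ H : ℂ → ℂ, Hyp 2 4 2 H → (∀ v ∈ ball (0:ℂ) 1, ‖H v‖ ≤ -Real.log (1 - ‖v‖ ^ 2)) → ∀ s : ℝ, 0 < s → s < 1 →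
      ∀ t : ℂ, mn (FF t H) s ≤ Real.exp (K / 64) * Real.exp (‖t‖ ^ 2 * (16 / (8 - C) * la s + 0)) := by
    intro H hH hG s hs hs1 t
    have hl := la_nonneg hs hs1
    rw [← Real.exp_add, add_zero]
    rcases le_or_gt ‖t‖ (1 / 8) with ht | ht
    · refine (hexp H hH t s ht hs hs1).trans (Real.exp_le_exp.2 ?_)
      have h6 : ‖t‖ ^ 2 ≤ 1 / 64 := by
        have := pow_le_pow_left₀ (norm_nonneg t) ht 2
        norm_num at this ⊢
        linarith
      have h7 : C ≤ 16 / (8 - C) := by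
        rw [le_div_iff₀ h8C]
        nlinarith [sq_nonneg (C - 4)]
      have h8 : ‖t‖ ^ 2 * K ≤ 1 / 64 * K := mul_le_mul_of_nonneg_right h6 hK
      have h9 : ‖t‖ ^ 2 * (C * la s) ≤ ‖t‖ ^ 2 * (16 / (8 - C) * la s) := by gcongr
      linarith
    · have ht0 : 0 < ‖t‖ := by linarith
      have h6 := mn_shift hH.1 (G := la s) hs hs1 (fun θ => by
        have h7 := hG _ (cm_mem hs hs1 θ)
        rw [norm_cm hs] at h7
        exact h7) t (1 / 8) (by norm_num) ht.le ht0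
      have e1 : ‖(((1 / 8 / ‖t‖ : ℝ) : ℂ)) * t‖ = 1 / 8 := by
        rw [norm_mul, Complex.norm_real, Real.norm_of_nonneg (by positivity)]
        field_simp
      have h7 := hexp H hH ((((1 / 8 / ‖t‖ : ℝ) : ℂ)) * t) s e1.le hs hs1
      rw [e1] at h7
      refine h6.trans ?_
      refine (mul_le_mul_of_nonneg_left h7 (Real.exp_pos _).le).trans ?_
      rw [← Real.exp_add]
      apply Real.exp_le_exp.2
      have h8 : ‖t‖ - 1 / 8 + C / 64 ≤ 16 / (8 - C) * ‖t‖ ^ 2 := by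
        rw [div_mul_eq_mul_div, le_div_iff₀ h8C]
        nlinarith [sq_nonneg (4 * ‖t‖ - (8 - C) / 8)]
      have h9 := mul_le_mul_of_nonneg_right h8 hl
      linarith
  -- conclusion
  refine ⟨Real.exp (K / 64) * (2 / (1 - 4 * a * (16 / (8 - C)))), fun R hR ψ h hS => transfer ext_all hS (fun s hs hs1 => ?_) hR⟩
  have S := (ext_all ψ h hS).1
  have hH : Hyp 2 4 2 (hat h 0) := by
    refine ⟨S.dH, S.H0, fun v hv => ?_⟩
    have h1 := kbound S hv
    have hn : ‖v‖ < 1 := mem_ball_zero_iff.1 hv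
    have hn0 := norm_nonneg v
    have e : ((1 - ‖v‖ ^ 2 : ℝ) : ℂ) * (v * deriv (hat h 0) v) - 2 =
        (((1 - ‖v‖ ^ 2 : ℝ) : ℂ) * (v * deriv (hat h 0) v) - 2 * (‖v‖ : ℂ) ^ 2) + ((-(2 * (1 - ‖v‖ ^ 2)) : ℝ) : ℂ) := by
      push_cast
      ring
    rw [e]
    refine (norm_add_le _ _).trans ?_
    rw [Complex.norm_real, norm_neg, Real.norm_of_nonneg (by nlinarith)]
    linarith
  refine em_of_expo gavg_all S.dH ha hac (Real.exp_pos _).le hs hs1 (K := 0)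
    (hall (hat h 0) hH (fun v hv => goluzin S hv) s hs hs1) ?_
  have hl := la_nonneg hs hs1
  have : 0 ≤ (1 - 4 * a * (16 / (8 - C))) * la s := mul_nonneg (by linarith) hl
  linarith

end Q90.SM
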