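import Mathlib
import Pool.Agent.Q90.SM.Asm

set_option autoImplicit false
open Complex Filter Topology Set Metric MeasureTheory

namespace Q90.SM

open Pool.Agent.TH325.SI (mn em la cont_cm mn_nonneg)

theorem lint_eq {g : ℝ → ℝ} (hg : Continuous g) (h0 : ∀ θ, 0 ≤ g θ) :
    ∫⁻ θ in Ioc 0 (2 * Real.pi), ENNReal.ofReal (g θ) = ENNReal.ofReal (∫ θ in (0:ℝ)..(2 * Real.pi), g θ) := by
  have hpi := Real.pi_pos
  rw [intervalIntegral.integral_of_le (by positivity), ofReal_integral_eq_lintegral_ofReal]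
  · exact (hg.integrableOn_Icc).mono_set Ioc_subset_Icc_self
  · exact Eventually.of_forall h0

theorem gavg (hg : S_gauss) : S_gavg := by
  intro H hH s hs hs1 K D b hK hDb hb hexp
  have hpi := Real.pi_pos
  have hc := cont_cm hH hs hs1
  have hbD : 0 < b - D := by linarith
  set X : ℝ → ℂ := fun θ => H (circleMap 0 s θ) with hX
  -- the mean over the circle of exp (Re (t H))
  have e1 : ∀ t : ℂ, mn (FF t H) s = (2 * Real.pi)⁻¹ * ∫ θ in (0:ℝ)..(2 * Real.pi), Real.exp (t * X θ).re := by
    intro t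
    unfold mn
    congr 1
    apply intervalIntegral.integral_congr
    intro θ _
    simp only
    unfold FF
    rw [Complex.norm_exp, ← Real.exp_nat_mul]
    congr 1
    have : ((2:ℕ):ℝ) * (t / 2 * H (circleMap 0 s θ)).re = (((2:ℝ):ℂ) * (t / 2 * H (circleMap 0 s θ))).re := by
      rw [Complex.re_ofReal_mul]
      norm_num
    rw [this]
    congr 1
    push_cast
    ring
  have hct : ∀ t : ℂ, Continuous fun θ : ℝ => Real.exp (t * X θ).re := fun t =>
    Real.continuous_exp.comp (Complex.continuous_re.comp (continuous_const.mul hc))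
  have e2 : ∀ t : ℂ, ∫⁻ θ in Ioc 0 (2 * Real.pi), ENNReal.ofReal (Real.exp (t * X θ).re) = ENNReal.ofReal (2 * Real.pi * mn (FF t H) s) := by
    intro t
    rw [lint_eq (hct t) (fun θ => (Real.exp_pos _).le), e1]
    congr 1
    field_simp
  -- Gaussian identity
  have e3 : ∀ θ : ℝ, ENNReal.ofReal (Real.exp (1 / (4 * b) * ‖X θ‖ ^ 2)) =
      ENNReal.ofReal (b / Real.pi) * ∫⁻ t : ℂ, ENNReal.ofReal (Real.exp ((t * X θ).re - b * ‖t‖ ^ 2)) := by
    intro θ
    rw [hg (X θ) b hb, ← ENNReal.ofReal_mul (by positivity)]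
    congr 1
    field_simp
  have hem : ENNReal.ofReal (2 * Real.pi * em H (1 / (4 * b)) s) = ∫⁻ θ in Ioc 0 (2 * Real.pi), ENNReal.ofReal (Real.exp (1 / (4 * b) * ‖X θ‖ ^ 2)) := by
    rw [lint_eq]
    · congr 1
      unfold Pool.Agent.TH325.SI.em
      field_simp
      rfl
    · exact Real.continuous_exp.comp (continuous_const.mul (hc.norm.pow 2))
    · intro θ
      exact (Real.exp_pos _).le
  have hmeas : Measurable (Function.uncurry fun (θ : ℝ) (t : ℂ) => ENNReal.ofReal (Real.exp ((t * X θ).re - b * ‖t‖ ^ 2))) := by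
    apply Measurable.ennreal_ofReal
    apply Continuous.measurable
    apply Real.continuous_exp.comp
    apply Continuous.sub
    · exact Complex.continuous_re.comp (continuous_snd.mul (hc.comp continuous_fst))
    · exact continuous_const.mul (continuous_snd.norm.pow 2)
  have h1 : ENNReal.ofReal (2 * Real.pi * em H (1 / (4 * b)) s) =
      ENNReal.ofReal (b / Real.pi) * ∫⁻ t : ℂ, ENNReal.ofReal (Real.exp (-(b * ‖t‖ ^ 2))) * ENNReal.ofReal (2 * Real.pi * mn (FF t H) s) := by
    rw [hem]
    simp only [e3]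
    rw [lintegral_const_mul]
    · congr 1
      rw [lintegral_lintegral_swap hmeas.aemeasurable]
      congr 1
      funext t
      rw [← e2 t, ← lintegral_const_mul]
      · congr 1
        funext θ
        rw [← ENNReal.ofReal_mul (Real.exp_pos _).le, ← Real.exp_add]
        congr 2
        ring
      · exact (hct t).measurable.ennreal_ofReal
    · exact hmeas.lintegral_prod_right'
  have h2 : ∫⁻ t : ℂ, ENNReal.ofReal (Real.exp (-(b * ‖t‖ ^ 2))) * ENNReal.ofReal (2 * Real.pi * mn (FF t H) s) ≤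
      ENNReal.ofReal (2 * Real.pi * K) * ∫⁻ t : ℂ, ENNReal.ofReal (Real.exp ((t * 0).re - (b - D) * ‖t‖ ^ 2)) := by
    rw [← lintegral_const_mul]
    · apply lintegral_mono
      intro t
      simp only
      rw [← ENNReal.ofReal_mul (Real.exp_pos _).le, ← ENNReal.ofReal_mul (by positivity)]
      apply ENNReal.ofReal_le_ofReal
      calc Real.exp (-(b * ‖t‖ ^ 2)) * (2 * Real.pi * mn (FF t H) s) ≤ Real.exp (-(b * ‖t‖ ^ 2)) * (2 * Real.pi * (K * Real.exp (D * ‖t‖ ^ 2))) := by
            gcongr
            exact hexp t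
        _ = 2 * Real.pi * K * (Real.exp (-(b * ‖t‖ ^ 2)) * Real.exp (D * ‖t‖ ^ 2)) := by ring
        _ = _ := by
            rw [← Real.exp_add]
            congr 2
            simp
            ring
    · apply Measurable.ennreal_ofReal
      apply Continuous.measurable
      fun_prop
  rw [hg 0 (b - D) hbD] at h2
  have h3 : ENNReal.ofReal (2 * Real.pi * em H (1 / (4 * b)) s) ≤ ENNReal.ofReal (2 * Real.pi * (K * b / (b - D))) := by
    rw [h1]
    calc ENNReal.ofReal (b / Real.pi) * ∫⁻ t : ℂ, ENNReal.ofReal (Real.exp (-(b * ‖t‖ ^ 2))) * ENNReal.ofReal (2 * Real.pi * mn (FF t H) s)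
        ≤ ENNReal.ofReal (b / Real.pi) * (ENNReal.ofReal (2 * Real.pi * K) * ENNReal.ofReal (Real.pi / (b - D) * Real.exp (‖(0:ℂ)‖ ^ 2 / (4 * (b - D))))) := by
          gcongr
      _ = _ := by
          rw [← ENNReal.ofReal_mul (by positivity), ← ENNReal.ofReal_mul (by positivity)]
          congr 1
          simp
          field_simp
  rw [ENNReal.ofReal_le_ofReal_iff (by positivity)] at h3
  have h4 : 0 < 2 * Real.pi := by positivity
  exact le_of_mul_le_mul_left h3 h4

end Q90.SM
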