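import Mathlib
import Pool.Agent.Q90.SM.Asm

/-! The three bounds for subclasses of `Σ`. -/

set_option autoImplicit false
open Complex Filter Topology Set Metric MeasureTheory

namespace Q90.SM

open Pool.Agent.TH325.SI (mn em la la_nonneg cm_mem norm_cm cont_cm mean_eq la_pos)
open Pool.Agent.H713R2 (tc)
open Pool.Agent.W677.Mar (hat Sg Hol kbound)

/-- the general transfer -/
theorem transfer (hx : S_ext) {ψ h : ℂ → ℂ} (hS : IsSig ψ h) {a C : ℝ}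
    (hC : ∀ s : ℝ, 0 < s → s < 1 → em (hat h 0) (a / la s) s ≤ C) {R : ℝ} (hR : 1 < R) : marshall a R h ≤ C := by
  rw [(hx ψ h hS).2.1 a R hR]
  exact hC _ (by positivity) (inv_lt_one_of_one_lt₀ hR)

/-- every map of the class -/
theorem fin1 (hx : S_ext) (hk : S_key) (a : ℝ) (ha : 0 < a) (ha1 : a < 1 / 16) : ∃ C : ℝ, ∀ R : ℝ, 1 < R →
    ∀ ψ h : ℂ → ℂ, IsSig ψ h → marshall a R h ≤ C := by
  obtain ⟨C, hC⟩ := hk 2 4 2 a (by norm_num) (by norm_num) ha (by linarith)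
  refine ⟨C, fun R hR ψ h hS => transfer hx hS (hC (hat h 0) ?_) hR⟩
  have S := (hx ψ h hS).1
  refine ⟨S.dH, S.H0, fun v hv => ?_⟩
  have h1 := kbound S hv
  have hn : ‖v‖ < 1 := mem_ball_zero_iff.1 hv
  have hn0 := norm_nonneg v
  have e : ((1 - ‖v‖ ^ 2 : ℝ) : ℂ) * (v * deriv (hat h 0) v) - 2 =
      (((1 - ‖v‖ ^ 2 : ℝ) : ℂ) * (v * deriv (hat h 0) v) - 2 * (‖v‖ : ℂ) ^ 2) + ((-(2 * (1 - ‖v‖ ^ 2)) : ℝ) : ℂ) := by
    push_cast
    ring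
  rw [e]
  refine (norm_add_le _ _).trans ?_
  rw [Complex.norm_real, norm_neg, Real.norm_of_nonneg (by nlinarith)]
  linarith

/-- the derivative of the disc version -/
theorem vderiv {h : ℂ → ℂ} (hh : Hol h 0) {v : ℂ} (hv : v ∈ ball (0:ℂ) 1) (hv0 : v ≠ 0) :
    v * deriv (hat h 0) v = -(v⁻¹ * deriv h v⁻¹) := by
  rw [(Pool.Agent.W677.Mar.hat_hasDeriv hh hv hv0).deriv]
  field_simp

theorem IsSig.hol {ψ h : ℂ → ℂ} (hS : IsSig ψ h) : Hol h 0 := ⟨hS.2.2.2.1, hS.2.2.2.2.2⟩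

/-- holomorphic families -/
theorem fin2 (hx : S_ext) (hk : S_key) (hpk : S_pick) (hf : S_fam) (a k : ℝ) (ha : 0 < a) (hk0 : 0 ≤ k) (hk1 : k < 1)
    (hak : a * (144 * k ^ 2) < (4 - k ^ 2) ^ 2) : ∃ C : ℝ, ∀ R : ℝ, 1 < R →
    ∀ (Ψ : ℂ → ℂ → ℂ), IsFam Ψ → ∀ (l : ℂ) (h : ℂ → ℂ), ‖l‖ ≤ k → IsSig (Ψ l) h → marshall a R h ≤ C := by
  have hk2 : k ^ 2 < 1 := by nlinarith
  have h4 : 3 < 4 - k ^ 2 := by linarith
  obtain ⟨C, hC⟩ := hk ((6 * k ^ 2 / (4 - k ^ 2) : ℝ) : ℂ) (12 * k / (4 - k ^ 2)) 5 a (by positivity) (by norm_num) ha (by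
    rw [div_pow, mul_pow, ← mul_div_assoc, div_lt_one (by positivity)]
    norm_num
    linarith)
  refine ⟨C, fun R hR Ψ hF l h hl hS => transfer hx hS (hC (hat h 0) ?_) hR⟩
  have S := (hx (Ψ l) h hS).1
  refine ⟨S.dH, S.H0, fun v hv => ?_⟩
  have hn : ‖v‖ < 1 := mem_ball_zero_iff.1 hv
  have hn0 := norm_nonneg v
  have hl1 : l ∈ ball (0:ℂ) 1 := mem_ball_zero_iff.2 (by linarith)
  by_cases hv0 : v = 0
  · rw [hv0]
    simp only [norm_zero, zero_mul, mul_zero, zero_sub, norm_neg, Complex.norm_real]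
    rw [Real.norm_of_nonneg (by positivity)]
    have h5 : 6 * k ^ 2 / (4 - k ^ 2) ≤ 12 * k / (4 - k ^ 2) := by
      apply div_le_div_of_nonneg_right _ (by linarith)
      nlinarith
    norm_num
    linarith
  · have hs : 0 < ‖v‖ := norm_pos_iff.2 hv0
    have hz : 1 < ‖v⁻¹‖ := Pool.Agent.W677.Mar.inv_ext hv hv0
    -- choice of the logarithms
    classical
    obtain ⟨g, hg⟩ : ∃ g : ℂ → ℂ → ℂ, ∀ m ∈ ball (0:ℂ) 1, IsSig (Ψ m) (g m) := by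
      choose! g hg using hF.1
      exact ⟨g, hg⟩
    set G : ℂ → ℂ → ℂ := fun m => if m = l then h else g m with hG
    have hGS : ∀ m ∈ ball (0:ℂ) 1, IsSig (Ψ m) (G m) := by
      intro m hm
      simp only [hG]
      split_ifs with hml
      · rw [hml]; exact hS
      · exact hg m hm
    have hGl : G l = h := by simp [hG]
    obtain ⟨hd, hd0⟩ := hf Ψ hF G hGS v⁻¹ hz
    set V : ℂ → ℂ := fun m => ((1 - ‖v‖ ^ 2 : ℝ) : ℂ) * (-(v⁻¹ * deriv (G m) v⁻¹)) with hV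
    have hVd : DifferentiableOn ℂ V (ball 0 1) := by
      simp only [hV]
      exact ((hd.const_mul _).neg).const_mul _
    have hV0 : V 0 = 0 := by simp only [hV]; rw [hd0]; simp
    have hVb : ∀ m ∈ ball (0:ℂ) 1, ‖V m - ((2 * ‖v‖ ^ 2 : ℝ) : ℂ)‖ ≤ 4 * ‖v‖ := by
      intro m hm
      have Sm := (hx (Ψ m) (G m) (hGS m hm)).1
      have h1 := kbound Sm hv
      rw [vderiv (hGS m hm).hol hv hv0] at h1
      simp only [hV]
      push_cast at h1 ⊢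
      exact h1
    have h6 := hpk (2 * ‖v‖ ^ 2) (4 * ‖v‖) (by positivity) (by rw [abs_of_nonneg (by positivity)]; nlinarith) V hVd hV0 hVb l k hl hk1
    have e1 : V l = ((1 - ‖v‖ ^ 2 : ℝ) : ℂ) * (v * deriv (hat h 0) v) := by
      simp only [hV]
      rw [vderiv hS.hol hv hv0, hGl]
    rw [e1] at h6
    set s : ℝ := ‖v‖ with hsdef
    set g0 : ℝ := (4 - s ^ 2) / (4 - k ^ 2 * s ^ 2) with hg0
    have hs2 : s ^ 2 < 1 := by nlinarith
    have hks : k ^ 2 * s ^ 2 < 1 := by nlinarith [sq_nonneg s, sq_nonneg k]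
    have hden : 3 < 4 - k ^ 2 * s ^ 2 := by linarith
    have e2 : k ^ 2 * ((4 * s) ^ 2 - (2 * s ^ 2) ^ 2) * (2 * s ^ 2) / ((4 * s) ^ 2 - k ^ 2 * (2 * s ^ 2) ^ 2) = 2 * s ^ 2 * k ^ 2 * g0 := by
      rw [hg0]
      have : 4 - k ^ 2 * s ^ 2 ≠ 0 := by linarith
      have e3 : (4 * s) ^ 2 - k ^ 2 * (2 * s ^ 2) ^ 2 = 4 * s ^ 2 * (4 - k ^ 2 * s ^ 2) := by ring
      rw [e3]
      field_simp
      ring
    have e4 : k * ((4 * s) ^ 2 - (2 * s ^ 2) ^ 2) * (4 * s) / ((4 * s) ^ 2 - k ^ 2 * (2 * s ^ 2) ^ 2) = 4 * s * k * g0 := by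
      rw [hg0]
      have : 4 - k ^ 2 * s ^ 2 ≠ 0 := by linarith
      have e3 : (4 * s) ^ 2 - k ^ 2 * (2 * s ^ 2) ^ 2 = 4 * s ^ 2 * (4 - k ^ 2 * s ^ 2) := by ring
      rw [e3]
      field_simp
      ring
    rw [e2, e4] at h6
    have hg1 : g0 - 3 / (4 - k ^ 2) = 4 * (1 - s ^ 2) * (1 - k ^ 2) / ((4 - k ^ 2 * s ^ 2) * (4 - k ^ 2)) := by
      have n1 : 4 - k ^ 2 * s ^ 2 ≠ 0 := by linarith
      have n2 : 4 - k ^ 2 ≠ 0 := by linarith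
      rw [hg0, div_sub_div _ _ n1 n2, div_eq_div_iff (mul_ne_zero n1 n2) (mul_ne_zero n1 n2)]
      ring
    have hx0 : 0 < 1 - s ^ 2 := by linarith
    have hg2 : 0 ≤ g0 - 3 / (4 - k ^ 2) := by
      rw [hg1]
      have : 0 ≤ 1 - k ^ 2 := by linarith
      positivity
    have hg3 : g0 - 3 / (4 - k ^ 2) ≤ (4 / 9) * (1 - s ^ 2) := by
      rw [hg1, div_le_iff₀ (by positivity)]
      have h7 : 9 ≤ (4 - k ^ 2 * s ^ 2) * (4 - k ^ 2) := by nlinarith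
      have h8 : 4 * (1 - s ^ 2) * (1 - k ^ 2) ≤ 4 * (1 - s ^ 2) * 1 := by
        gcongr
        nlinarith [sq_nonneg k]
      nlinarith
    have hg4 : g0 ≤ 1 := by
      rw [hg0, div_le_one (by linarith)]
      nlinarith [sq_nonneg s]
    have hg5 : 0 ≤ g0 := by
      rw [hg0]
      apply div_nonneg <;> linarith
    -- the centre
    have hc : |2 * s ^ 2 * k ^ 2 * g0 - 6 * k ^ 2 / (4 - k ^ 2)| ≤ 3 * (1 - s ^ 2) := by
      have e5 : 2 * s ^ 2 * k ^ 2 * g0 - 6 * k ^ 2 / (4 - k ^ 2) = 2 * k ^ 2 * (g0 - 3 / (4 - k ^ 2)) - 2 * k ^ 2 * (1 - s ^ 2) * g0 := by ring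
      rw [e5, abs_le]
      have h9 : 0 ≤ 2 * k ^ 2 * (g0 - 3 / (4 - k ^ 2)) := by positivity
      have h10 : 2 * k ^ 2 * (g0 - 3 / (4 - k ^ 2)) ≤ 2 * 1 * ((4 / 9) * (1 - s ^ 2)) := by gcongr
      have h11 : 0 ≤ 2 * k ^ 2 * (1 - s ^ 2) * g0 := by positivity
      have h12 : 2 * k ^ 2 * (1 - s ^ 2) * g0 ≤ 2 * 1 * (1 - s ^ 2) * 1 := by gcongr
      constructor <;> linarith
    -- the radius
    have hr : 4 * s * k * g0 ≤ 12 * k / (4 - k ^ 2) + 2 * (1 - s ^ 2) := by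
      have e6 : 12 * k / (4 - k ^ 2) = 4 * 1 * k * (3 / (4 - k ^ 2)) := by ring
      have h13 : 4 * s * k * g0 ≤ 4 * 1 * k * g0 := by gcongr
      have h14 : 4 * 1 * k * (g0 - 3 / (4 - k ^ 2)) ≤ 4 * 1 * 1 * ((4 / 9) * (1 - s ^ 2)) := by gcongr
      have e7 : 4 * 1 * k * (g0 - 3 / (4 - k ^ 2)) = 4 * 1 * k * g0 - 4 * 1 * k * (3 / (4 - k ^ 2)) := by ring
      rw [e6]
      linarith
    have e8 : ((1 - s ^ 2 : ℝ) : ℂ) * (v * deriv (hat h 0) v) - ((6 * k ^ 2 / (4 - k ^ 2) : ℝ) : ℂ) =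
        (((1 - s ^ 2 : ℝ) : ℂ) * (v * deriv (hat h 0) v) - ((2 * s ^ 2 * k ^ 2 * g0 : ℝ) : ℂ)) + ((2 * s ^ 2 * k ^ 2 * g0 - 6 * k ^ 2 / (4 - k ^ 2) : ℝ) : ℂ) := by
      push_cast
      ring
    rw [e8]
    refine (norm_add_le _ _).trans ?_
    rw [Complex.norm_real, Real.norm_eq_abs]
    linarith

/-- Schwarzian derivative -/
theorem fin5 (hx : S_ext) (hk : S_key) (hi : S_inv) (hsw : S_schw) (a k : ℝ) (ha : 0 < a) (hk0 : 0 < k) (hk1 : k ≤ 1)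
    (hak : a * (2 - 2 * Real.sqrt (1 - k ^ 2)) < 1) : ∃ C : ℝ, ∀ R : ℝ, 1 < R →
    ∀ ψ h : ℂ → ℂ, IsSig ψ h → (∀ z : ℂ, 1 < ‖z‖ → (‖z‖ ^ 2 - 1) ^ 2 * ‖schw ψ z‖ ≤ 2 * k) → marshall a R h ≤ C := by
  set α : ℝ := Real.arcsin k / 2 with hα
  have hα0 : 0 < α := by
    have := Real.arcsin_pos.2 hk0
    rw [hα]; linarith
  have hα1 : α ≤ Real.pi / 4 := by
    have := Real.arcsin_le_pi_div_two k
    rw [hα]; linarith
  have hsin : Real.sin (2 * α) = k := by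
    rw [hα, mul_div_cancel₀ _ (two_ne_zero), Real.sin_arcsin (by linarith) hk1]
  have hcos : Real.cos (2 * α) = Real.sqrt (1 - k ^ 2) := by
    rw [hα, mul_div_cancel₀ _ (two_ne_zero), Real.cos_arcsin]
  have hpi := Real.pi_pos
  have hs0 : 0 < Real.sin α := Real.sin_pos_of_pos_of_lt_pi hα0 (by linarith)
  have hM : (2 * Real.sin α) ^ 2 = 2 - 2 * Real.sqrt (1 - k ^ 2) := by
    rw [← hcos, Real.cos_two_mul]
    have := Real.sin_sq_add_cos_sq α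
    nlinarith
  obtain ⟨C, hC⟩ := hk ((2 * (1 - Real.cos α) : ℝ) : ℂ) (2 * Real.sin α) 0 a (by positivity) le_rfl ha (by rw [hM]; exact hak)
  refine ⟨C, fun R hR ψ h hS hw => transfer hx hS (hC (hat h 0) ?_) hR⟩
  have S := (hx ψ h hS).1
  refine ⟨S.dH, S.H0, fun v hv => ?_⟩
  rw [zero_mul, add_zero]
  have hn : ‖v‖ < 1 := mem_ball_zero_iff.1 hv
  have hkey : ∀ v : ℂ, v ∈ ball (0:ℂ) 1 → v ≠ 0 →
      ‖((1 - ‖v‖ ^ 2 : ℝ) : ℂ) * (v * deriv (hat h 0) v) - ((2 * (1 - Real.cos α) : ℝ) : ℂ)‖ ≤ 2 * Real.sin α := by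
    intro v hv hv0
    have hs : 0 < ‖v‖ := norm_pos_iff.2 hv0
    have hn : ‖v‖ < 1 := mem_ball_zero_iff.1 hv
    obtain ⟨W', τ, h1, h2⟩ := hsw ψ h hS k hk0.le hw (v / ‖v‖) (by
      rw [norm_div, Complex.norm_real, norm_norm, div_self hs.ne'])
    have h3 := hi α k hα0 hα1 hk0.le (by rw [hsin]) _ W' τ (fun s hs0 hs1 => h1 s hs0 hs1) h2 ‖v‖ hs hn
    have e : (‖v‖ : ℂ) * (v / ‖v‖) = v := by
      have : (‖v‖ : ℂ) ≠ 0 := by exact_mod_cast hs.ne'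
      field_simp
    rw [e] at h3
    exact h3
  by_cases hv0 : v = 0
  · -- by continuity, or directly
    rw [hv0]
    simp only [norm_zero, zero_mul, mul_zero, zero_sub, norm_neg, Complex.norm_real]
    rw [Real.norm_of_nonneg (by have := Real.cos_le_one α; linarith)]
    have hc1 := Real.cos_le_one α
    have hc0 : Real.cos (Real.pi / 4) ≤ Real.cos α := Real.cos_le_cos_of_nonneg_of_le_pi hα0.le (by linarith) hα1
    have hcs : 0 ≤ Real.cos α := by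
      have : 0 ≤ Real.cos (Real.pi / 4) := Real.cos_nonneg_of_mem_Icc ⟨by linarith, by linarith⟩
      linarith
    have h5 := Real.sin_sq_add_cos_sq α
    have h6 : 1 - Real.cos α ≤ Real.sin α := by nlinarith
    linarith
  · exact hkey v hv hv0

end Q90.SM
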