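import Mathlib
import Pool.Agent.Q90.SM.Fin

/-! Equivalent forms of the strong Marshall bound. -/

set_option autoImplicit false
open Complex Filter Topology Set Metric MeasureTheory

namespace Q90.SM

open Pool.Agent.TH325.SI (mn em la la_nonneg cm_mem norm_cm cont_cm mean_eq la_pos log_eq)
open Pool.Agent.H713R2 (tc)
open Pool.Agent.W677.Mar (hat Sg Hol)

theorem norm_circ {R : ℝ} (hR : 0 ≤ R) (θ : ℝ) : ‖circ R θ‖ = R := by
  rw [circ, norm_mul, Complex.norm_exp_ofReal_mul_I, mul_one, Complex.norm_real, Real.norm_of_nonneg hR]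

theorem cont_circ (R : ℝ) : Continuous (circ R) := by
  unfold circ
  fun_prop

theorem IsSig.cont {ψ h : ℂ → ℂ} (hS : IsSig ψ h) {R : ℝ} (hR : 1 < R) : Continuous fun θ : ℝ => h (circ R θ) := by
  rw [← continuousOn_univ]
  refine hS.2.2.2.1.continuousOn.comp (cont_circ R).continuousOn fun θ _ => ?_
  show 1 < ‖circ R θ‖
  rw [norm_circ (by linarith)]
  exact hR

theorem gol (hx : S_ext) {ψ h : ℂ → ℂ} (hS : IsSig ψ h) {z : ℂ} (hz : 1 < ‖z‖) :
    ‖h z‖ ≤ Real.log (‖z‖ ^ 2 / (‖z‖ ^ 2 - 1)) := by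
  have S := (hx ψ h hS).1
  have hz0 : z ≠ 0 := by
    intro h0
    rw [h0, norm_zero] at hz
    linarith
  have h1 : z⁻¹ ∈ ball (0:ℂ) 1 := by
    rw [mem_ball_zero_iff, norm_inv]
    exact inv_lt_one_of_one_lt₀ hz
  have h2 := Pool.Agent.W677.Mar.goluzin S h1
  rw [Pool.Agent.W677.Mar.hat_ne _ _ (inv_ne_zero hz0), inv_inv, norm_inv] at h2
  rw [log_eq hz]
  exact h2

theorem L_pos {R : ℝ} (hR : 1 < R) : 0 < Real.log (R ^ 2 / (R ^ 2 - 1)) := by
  apply Real.log_pos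
  have : 0 < R ^ 2 - 1 := by nlinarith
  rw [lt_div_iff₀ this]
  linarith

theorem L_anti {R₀ R : ℝ} (hR₀ : 1 < R₀) (hR : R₀ ≤ R) : Real.log (R ^ 2 / (R ^ 2 - 1)) ≤ Real.log (R₀ ^ 2 / (R₀ ^ 2 - 1)) := by
  have h1 : 0 < R ^ 2 - 1 := by nlinarith
  have h2 : 0 < R₀ ^ 2 - 1 := by nlinarith
  have h3 : 0 < R := by linarith
  apply Real.log_le_log (by positivity)
  rw [div_le_div_iff₀ h1 h2]
  nlinarith

theorem mean_le {f g : ℝ → ℝ} (hf : Continuous f) (hg : Continuous g) (h : ∀ θ, f θ ≤ g θ) :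
    (1 / (2 * Real.pi)) * ∫ θ in (0:ℝ)..(2 * Real.pi), f θ ≤ (1 / (2 * Real.pi)) * ∫ θ in (0:ℝ)..(2 * Real.pi), g θ := by
  have hpi := Real.pi_pos
  apply mul_le_mul_of_nonneg_left _ (by positivity)
  apply intervalIntegral.integral_mono_on (by positivity) (hf.intervalIntegrable _ _) (hg.intervalIntegrable _ _)
  intro θ _
  exact h θ

theorem mean_const (c : ℝ) : (1 / (2 * Real.pi)) * ∫ θ in (0:ℝ)..(2 * Real.pi), c = c := by
  have hpi := Real.pi_pos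
  simp
  field_simp

theorem marshall_nonneg (a R : ℝ) (h : ℂ → ℂ) : 0 ≤ marshall a R h := by
  unfold marshall
  have hpi := Real.pi_pos
  apply mul_nonneg (by positivity)
  apply intervalIntegral.integral_nonneg (by positivity)
  intro _ _
  positivity

section

variable (𝓕 : Set (ℂ → ℂ)) (A : ℝ)

/-- the question, for the class `𝓕` and all `a < A` -/
def Q1 : Prop := ∀ a : ℝ, 0 < a → a < A → ∃ C R₀ : ℝ, 1 < R₀ ∧ ∀ R : ℝ, 1 < R → R < R₀ →
  ∀ ψ ∈ 𝓕, ∀ h : ℂ → ℂ, IsSig ψ h → marshall a R h ≤ C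

def Q1' : Prop := ∀ a : ℝ, 0 < a → a < A → ∃ C : ℝ, ∀ R : ℝ, 1 < R →
  ∀ ψ ∈ 𝓕, ∀ h : ℂ → ℂ, IsSig ψ h → marshall a R h ≤ C

def Q2 : Prop := ∀ c : ℝ, 1 / (4 * A) < c → ∃ K R₀ : ℝ, 1 < R₀ ∧ ∀ R : ℝ, 1 < R → R < R₀ →
  ∀ ψ ∈ 𝓕, ∀ h : ℂ → ℂ, IsSig ψ h → ∀ t : ℂ, ‖t‖ < 4 * A →
    pmean t R h ≤ K * (R ^ 2 / (R ^ 2 - 1)) ^ (c * ‖t‖ ^ 2)

def Q2' : Prop := ∀ c : ℝ, 1 / (4 * A) < c → ∃ K : ℝ, ∀ R : ℝ, 1 < R →
  ∀ ψ ∈ 𝓕, ∀ h : ℂ → ℂ, IsSig ψ h → ∀ t : ℂ,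
    pmean t R h ≤ K * (R ^ 2 / (R ^ 2 - 1)) ^ (c * ‖t‖ ^ 2)

def Q3 : Prop := ∀ a : ℝ, 0 < a → a < A → ∃ K : ℝ, ∀ R : ℝ, 1 < R →
  ∀ ψ ∈ 𝓕, ∀ h : ℂ → ℂ, IsSig ψ h → ∀ u : ℝ, 0 ≤ u →
    volume {θ : ℝ | θ ∈ Ioc 0 (2 * Real.pi) ∧ u * Real.log (R ^ 2 / (R ^ 2 - 1)) < ‖h (circ R θ)‖} ≤
      ENNReal.ofReal (2 * Real.pi * K * (R ^ 2 / (R ^ 2 - 1)) ^ (-(a * u ^ 2)))

def Q4 : Prop := ∀ a : ℝ, 0 < a → a < A → ∃ K : ℝ, ∀ R : ℝ, 1 < R →
  ∀ ψ ∈ 𝓕, ∀ h : ℂ → ℂ, IsSig ψ h → ∀ n : ℕ,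
    (1 / (2 * Real.pi)) * ∫ θ in (0:ℝ)..(2 * Real.pi), ‖h (circ R θ)‖ ^ (2 * n) ≤
      K * n.factorial * (Real.log (R ^ 2 / (R ^ 2 - 1)) / a) ^ n

variable {𝓕 A}

theorem q11 (hx : S_ext) (h : Q1 𝓕 A) : Q1' 𝓕 A := by
  intro a ha haA
  obtain ⟨C, R₀, hR₀, hC⟩ := h a ha haA
  refine ⟨max C (Real.exp (a * Real.log (R₀ ^ 2 / (R₀ ^ 2 - 1)))), ?_⟩
  intro R hR ψ hψ h hS
  rcases lt_or_ge R R₀ with hlt | hge
  · exact (hC R hR hlt ψ hψ h hS).trans (le_max_left _ _)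
  · refine le_trans ?_ (le_max_right _ _)
    have hL := L_pos hR
    have hLa := L_anti hR₀ hge
    have hc := hS.cont hR
    calc marshall a R h ≤ (1 / (2 * Real.pi)) * ∫ θ in (0:ℝ)..(2 * Real.pi), Real.exp (a * Real.log (R₀ ^ 2 / (R₀ ^ 2 - 1))) := by
          apply mean_le
          · exact Real.continuous_exp.comp ((continuous_const.mul (hc.norm.pow 2)).div_const _)
          · exact continuous_const
          · intro θ
            apply Real.exp_le_exp.2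
            have h1 := gol hx hS (z := circ R θ) (by rw [norm_circ (by linarith)]; exact hR)
            rw [norm_circ (by linarith)] at h1
            rw [div_le_iff₀ hL]
            calc a * ‖h (circ R θ)‖ ^ 2 ≤ a * Real.log (R ^ 2 / (R ^ 2 - 1)) ^ 2 := by gcongr
              _ = a * Real.log (R ^ 2 / (R ^ 2 - 1)) * Real.log (R ^ 2 / (R ^ 2 - 1)) := by ring
              _ ≤ _ := by gcongr
      _ = _ := mean_const _

theorem q12 (h : Q1' 𝓕 A) (hA : 0 < A) : Q2' 𝓕 A := by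
  intro c hc
  have hc0 : 0 < c := lt_trans (by positivity) hc
  obtain ⟨C, hC⟩ := h (1 / (4 * c)) (by positivity) (by
    rw [div_lt_iff₀ (by positivity)] at hc ⊢
    linarith)
  refine ⟨C, ?_⟩
  intro R hR ψ hψ h hS t
  have hL := L_pos hR
  have hcont := hS.cont hR
  have hq : 0 < R ^ 2 / (R ^ 2 - 1) := by
    have : 0 < R ^ 2 - 1 := by nlinarith
    positivity
  set L : ℝ := Real.log (R ^ 2 / (R ^ 2 - 1)) with hLdef
  have e1 : (R ^ 2 / (R ^ 2 - 1)) ^ (c * ‖t‖ ^ 2) = Real.exp (c * ‖t‖ ^ 2 * L) := by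
    rw [Real.rpow_def_of_pos hq, mul_comm]
  have h2 := hC R hR ψ hψ h hS
  calc pmean t R h ≤ (1 / (2 * Real.pi)) * ∫ θ in (0:ℝ)..(2 * Real.pi),
        Real.exp (1 / (4 * c) * ‖h (circ R θ)‖ ^ 2 / L) * Real.exp (c * ‖t‖ ^ 2 * L) := by
        apply mean_le
        · exact (Complex.continuous_exp.comp (continuous_const.mul hcont)).norm
        · exact (Real.continuous_exp.comp ((continuous_const.mul (hcont.norm.pow 2)).div_const _)).mul continuous_const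
        · intro θ
          rw [Complex.norm_exp, ← Real.exp_add]
          apply Real.exp_le_exp.2
          have h3 : (t * h (circ R θ)).re ≤ ‖t‖ * ‖h (circ R θ)‖ := by
            rw [← norm_mul]
            exact Complex.re_le_norm _
          refine h3.trans ?_
          set y := ‖h (circ R θ)‖
          have h4 : 1 / (4 * c) * y ^ 2 / L + c * ‖t‖ ^ 2 * L - ‖t‖ * y = (y / (2 * c * L) - ‖t‖) ^ 2 * (c * L) := by
            field_simp
            ring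
          have h5 : 0 ≤ (y / (2 * c * L) - ‖t‖) ^ 2 * (c * L) := by positivity
          linarith
    _ = marshall (1 / (4 * c)) R h * Real.exp (c * ‖t‖ ^ 2 * L) := by
        rw [intervalIntegral.integral_mul_const, ← mul_assoc]
        rfl
    _ ≤ C * (R ^ 2 / (R ^ 2 - 1)) ^ (c * ‖t‖ ^ 2) := by
        rw [e1]
        gcongr

theorem q22 (h : Q2' 𝓕 A) : Q2 𝓕 A := by
  intro c hc
  obtain ⟨K, hK⟩ := h c hc
  exact ⟨K, 2, one_lt_two, fun R hR _ ψ hψ h hS t _ => hK R hR ψ hψ h hS t⟩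

theorem q21 (hx : S_ext) (hg : S_gavg) (h : Q2 𝓕 A) (hA : 0 < A) : Q1 𝓕 A := by
  intro a ha haA
  have hlt : 1 / (4 * A) < 1 / (4 * a) := by
    apply one_div_lt_one_div_of_lt (by positivity)
    linarith
  obtain ⟨c, hc1, hc2⟩ := exists_between hlt
  have hc0 : 0 < c := lt_trans (by positivity) hc1
  have hac : 4 * a * c < 1 := by
    rw [lt_div_iff₀ (by positivity)] at hc2
    linarith
  obtain ⟨K, R₀, hR₀, hK⟩ := h c hc1
  refine ⟨max K 1 * (2 / (1 - 4 * a * c)), R₀, hR₀, ?_⟩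
  intro R hR hlt ψ hψ h hS
  have S := (hx ψ h hS).1
  have hR0 : 0 < R⁻¹ := by positivity
  have hR1 : R⁻¹ < 1 := inv_lt_one_of_one_lt₀ hR
  rw [(hx ψ h hS).2.1 a R hR]
  have hL := L_pos hR
  have hq : 0 < R ^ 2 / (R ^ 2 - 1) := by
    have : 0 < R ^ 2 - 1 := by nlinarith
    positivity
  refine em_of_expo hg S.dH ha hac (by positivity) hR0 hR1 (K := 0) (fun t => ?_) ?_
  · rw [← (hx ψ h hS).2.2 t R hR, add_zero, ← log_eq hR]
    have e1 : (R ^ 2 / (R ^ 2 - 1)) ^ (c * ‖t‖ ^ 2) = Real.exp (‖t‖ ^ 2 * (c * Real.log (R ^ 2 / (R ^ 2 - 1)))) := by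
      rw [Real.rpow_def_of_pos hq]
      congr 1
      ring
    rcases lt_or_ge ‖t‖ (4 * A) with h4 | h4
    · refine (hK R hR hlt ψ hψ h hS t h4).trans ?_
      rw [e1]
      gcongr
      exact le_max_left _ _
    · have hcont := hS.cont hR
      have h5 : pmean t R h ≤ Real.exp (‖t‖ ^ 2 * (c * Real.log (R ^ 2 / (R ^ 2 - 1)))) := by
        calc pmean t R h ≤ (1 / (2 * Real.pi)) * ∫ θ in (0:ℝ)..(2 * Real.pi), Real.exp (‖t‖ ^ 2 * (c * Real.log (R ^ 2 / (R ^ 2 - 1)))) := by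
              apply mean_le
              · exact (Complex.continuous_exp.comp (continuous_const.mul hcont)).norm
              · exact continuous_const
              · intro θ
                rw [Complex.norm_exp]
                apply Real.exp_le_exp.2
                have h3 : (t * h (circ R θ)).re ≤ ‖t‖ * ‖h (circ R θ)‖ := by
                  rw [← norm_mul]
                  exact Complex.re_le_norm _
                have h1 := gol hx hS (z := circ R θ) (by rw [norm_circ (by linarith)]; exact hR)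
                rw [norm_circ (by linarith)] at h1
                have h6 : 1 ≤ c * ‖t‖ := by
                  have : 1 / (4 * A) * (4 * A) ≤ c * ‖t‖ := by gcongr
                  have e : 1 / (4 * A) * (4 * A) = 1 := by field_simp
                  linarith
                calc (t * h (circ R θ)).re ≤ ‖t‖ * Real.log (R ^ 2 / (R ^ 2 - 1)) := h3.trans (by gcongr)
                  _ = 1 * (‖t‖ * Real.log (R ^ 2 / (R ^ 2 - 1))) := (one_mul _).symm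
                  _ ≤ c * ‖t‖ * (‖t‖ * Real.log (R ^ 2 / (R ^ 2 - 1))) := by gcongr
                  _ = _ := by ring
          _ = _ := mean_const _
      refine h5.trans ?_
      have h7 := Real.exp_pos (‖t‖ ^ 2 * (c * Real.log (R ^ 2 / (R ^ 2 - 1))))
      have h8 : 1 ≤ max K 1 := le_max_right _ _
      nlinarith
  · have := la_pos hR0 hR1
    have : 0 ≤ (1 - 4 * a * c) * la R⁻¹ := mul_nonneg (by linarith) this.le
    linarith

theorem q13 (hm : S_mark) (h : Q1' 𝓕 A) : Q3 𝓕 A := by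
  intro a ha haA
  obtain ⟨C, hC⟩ := h a ha haA
  refine ⟨C, fun R hR ψ hψ h hS u hu => ?_⟩
  have hL := L_pos hR
  have hq : 0 < R ^ 2 / (R ^ 2 - 1) := by
    have : 0 < R ^ 2 - 1 := by nlinarith
    positivity
  have h1 := hm (fun θ => ‖h (circ R θ)‖) (hS.cont hR).norm (fun θ => norm_nonneg _) a C _ ha hL (hC R hR ψ hψ h hS) u hu
  refine h1.trans (le_of_eq ?_)
  rw [Real.rpow_def_of_pos hq]
  congr 3
  ring

theorem q31 (ht : S_tail) (h : Q3 𝓕 A) : Q1' 𝓕 A := by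
  intro a ha haA
  obtain ⟨b, hb1, hb2⟩ := exists_between haA
  obtain ⟨K, hK⟩ := h b (by linarith) hb2
  refine ⟨1 + max K 0 * a / (b - a), fun R hR ψ hψ h hS => ?_⟩
  have hL := L_pos hR
  have hq : 0 < R ^ 2 / (R ^ 2 - 1) := by
    have : 0 < R ^ 2 - 1 := by nlinarith
    positivity
  refine ht (fun θ => ‖h (circ R θ)‖) (hS.cont hR).norm (fun θ => norm_nonneg _) a b (max K 0) _ ha hb1 (le_max_right _ _) hL ?_
  intro u hu
  refine (hK R hR ψ hψ h hS u hu).trans ?_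
  apply ENNReal.ofReal_le_ofReal
  rw [Real.rpow_def_of_pos hq]
  have hpi := Real.pi_pos
  have e : Real.log (R ^ 2 / (R ^ 2 - 1)) * -(b * u ^ 2) = -b * u ^ 2 * Real.log (R ^ 2 / (R ^ 2 - 1)) := by ring
  rw [e]
  gcongr
  exact le_max_left _ _

theorem q14 (hm : S_mom) (h : Q1' 𝓕 A) : Q4 𝓕 A := by
  intro a ha haA
  obtain ⟨C, hC⟩ := h a ha haA
  refine ⟨C, fun R hR ψ hψ h hS n => ?_⟩
  exact (hm (fun θ => ‖h (circ R θ)‖) (hS.cont hR).norm (fun θ => norm_nonneg _) _ (L_pos hR)).1 a C ha (hC R hR ψ hψ h hS) n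

theorem q41 (hm : S_mom) (h : Q4 𝓕 A) : Q1' 𝓕 A := by
  intro a ha haA
  obtain ⟨b, hb1, hb2⟩ := exists_between haA
  obtain ⟨K, hK⟩ := h b (by linarith) hb2
  refine ⟨max K 0 * b / (b - a), fun R hR ψ hψ h hS => ?_⟩
  have hL := L_pos hR
  refine (hm (fun θ => ‖h (circ R θ)‖) (hS.cont hR).norm (fun θ => norm_nonneg _) _ hL).2 a b (max K 0) ha hb1 (le_max_right _ _) ?_
  intro n
  refine (hK R hR ψ hψ h hS n).trans ?_
  have : 0 ≤ (Real.log (R ^ 2 / (R ^ 2 - 1)) / b) ^ n := by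
    have : 0 < b := by linarith
    positivity
  gcongr
  exact le_max_left _ _

/-- **the equivalence** -/
theorem eqv (hx : S_ext) (hg : S_gavg) (hmk : S_mark) (ht : S_tail) (hm : S_mom) (𝓕 : Set (ℂ → ℂ)) (A : ℝ) (hA : 0 < A) :
    List.TFAE [Q1 𝓕 A, Q1' 𝓕 A, Q2 𝓕 A, Q2' 𝓕 A, Q3 𝓕 A, Q4 𝓕 A] := by
  tfae_have 1 → 2 := q11 hx
  tfae_have 2 → 4 := fun h => q12 h hA
  tfae_have 4 → 3 := q22
  tfae_have 3 → 1 := fun h => q21 hx hg h hA
  tfae_have 2 → 5 := q13 hmk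
  tfae_have 5 → 2 := q31 ht
  tfae_have 2 → 6 := q14 hm
  tfae_have 6 → 2 := q41 hm
  tfae_finish

end

end Q90.SM
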