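import Mathlib
import Pool.Agent.Q90.SM.Stm

set_option autoImplicit false
open Complex Filter Topology Set Metric MeasureTheory

namespace Q90.SM

open Pool.Agent.TH325.SI (mn em la mean_eq refl_int hat_cm ep ep_per)
open Pool.Agent.W677.Mar (hat Sg Hol)

theorem ext_all : S_ext := by
  intro ψ h hS
  refine ⟨Pool.Agent.W677.Mar.toSg hS.1 hS.2.1 hS.2.2.1 hS.2.2.2.1 hS.2.2.2.2.1 hS.2.2.2.2.2, ?_, ?_⟩
  · intro a R hR
    exact mean_eq hR a
  · intro t R hR
    have hR0 : 0 < R⁻¹ := by positivity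
    unfold pmean mn
    rw [one_div]
    congr 1
    have e : ∀ θ : ℝ, ‖FF t (hat h 0) (circleMap 0 R⁻¹ θ)‖ ^ 2 = ‖Complex.exp (t * h (ep R (-θ)))‖ := by
      intro θ
      unfold FF
      rw [hat_cm hR0, inv_inv, ← norm_pow, ← Complex.exp_nat_mul]
      congr 2
      push_cast
      ring
    simp only [e]
    exact (refl_int (F := fun θ => ‖Complex.exp (t * h (ep R θ))‖) (fun θ => by simp only [ep_per R θ])).symm

end Q90.SM
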