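import Mathlib
import Pool.Agent.Q90.SM.Stm

set_option autoImplicit false
open Complex Filter Topology Set Metric MeasureTheory

namespace Q90.SM

theorem gauss : S_gauss := by
  intro w b hb
  have hb' : 0 < (b : ℂ).re := by simpa using hb
  have h1 := GaussianFourier.integral_cexp_neg_mul_sq_norm_add (V := ℂ) hb' 1 ((starRingEnd ℂ) w)
  have h2 := GaussianFourier.integrable_cexp_neg_mul_sq_norm_add (V := ℂ) hb' 1 ((starRingEnd ℂ) w)
  have e1 : ∀ t : ℂ, Complex.exp (-(b:ℂ) * ‖t‖ ^ 2 + 1 * inner ℝ ((starRingEnd ℂ) w) t) = ((Real.exp ((t * w).re - b * ‖t‖ ^ 2) : ℝ) : ℂ) := by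
    intro t
    rw [Complex.ofReal_exp]
    congr 1
    rw [one_mul]
    have : inner ℝ ((starRingEnd ℂ) w) t = (t * w).re := by
      rw [Complex.inner]
      simp
    rw [this]
    push_cast
    ring
  simp only [e1] at h1 h2
  have h3 : Integrable (fun t : ℂ => Real.exp ((t * w).re - b * ‖t‖ ^ 2)) := by
    exact h2.re.congr (Eventually.of_forall fun t => by simp only [RCLike.re_to_complex, Complex.ofReal_re])
  rw [integral_complex_ofReal] at h1
  have h4 : ∫ t : ℂ, Real.exp ((t * w).re - b * ‖t‖ ^ 2) = Real.pi / b * Real.exp (‖w‖ ^ 2 / (4 * b)) := by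
    have h5 : (((∫ t : ℂ, Real.exp ((t * w).re - b * ‖t‖ ^ 2)) : ℝ) : ℂ) = ((Real.pi / b * Real.exp (‖w‖ ^ 2 / (4 * b)) : ℝ) : ℂ) := by
      rw [h1]
      have : (Module.finrank ℝ ℂ : ℂ) / 2 = 1 := by
        rw [Complex.finrank_real_complex]
        norm_num
      rw [this, Complex.cpow_one, RCLike.norm_conj]
      push_cast
      congr 2
      ring
    exact_mod_cast h5
  rw [← h4, ofReal_integral_eq_lintegral_ofReal h3]
  exact Eventually.of_forall fun t => (Real.exp_pos _).le

end Q90.SM
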