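import Mathlib
import Pool.Agent.Q90.SM.Stm

set_option autoImplicit false
open Complex Filter Topology Set Metric MeasureTheory

namespace Q90.SM

theorem hp : S_hp := by
  intro c M E r hr hr1
  set ρ : ℝ := (1 + r) / 2 with hρ
  have h1 : r < ρ := by rw [hρ]; linarith
  have h2 : ρ < 1 := by rw [hρ]; linarith
  have h0 : 0 < ρ := by linarith
  have h3 : 0 < ρ * (1 - ρ ^ 2) := by
    have : 0 < 1 - ρ ^ 2 := by nlinarith
    positivity
  refine ⟨(‖c‖ + |M| + |E|) / (ρ * (1 - ρ ^ 2)), by positivity, ?_⟩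
  intro H hH v hv
  have hd : DifferentiableOn ℂ (deriv H) (ball 0 1) := hH.1.deriv isOpen_ball
  have hsub : closure (ball (0:ℂ) ρ) ⊆ ball 0 1 := by
    rw [closure_ball _ h0.ne']
    exact closedBall_subset_ball h2
  have hdc : DiffContOnCl ℂ (deriv H) (ball 0 ρ) :=
    (hd.mono hsub).diffContOnCl
  have hfr : ∀ z ∈ frontier (ball (0:ℂ) ρ), ‖deriv H z‖ ≤ (‖c‖ + |M| + |E|) / (ρ * (1 - ρ ^ 2)) := by
    intro z hz
    rw [frontier_ball _ h0.ne', mem_sphere_zero_iff_norm] at hz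
    have h4 := hH.2.2 z (by rw [mem_ball_zero_iff, hz]; exact h2)
    rw [hz] at h4
    have h5 : ‖((1 - ρ ^ 2 : ℝ) : ℂ) * (z * deriv H z)‖ = ρ * (1 - ρ ^ 2) * ‖deriv H z‖ := by
      rw [norm_mul, norm_mul, Complex.norm_real, Real.norm_of_nonneg (by nlinarith), hz]
      ring
    have h6 : ‖((1 - ρ ^ 2 : ℝ) : ℂ) * (z * deriv H z)‖ ≤ ‖((1 - ρ ^ 2 : ℝ) : ℂ) * (z * deriv H z) - c‖ + ‖c‖ := by
      have := norm_add_le (((1 - ρ ^ 2 : ℝ) : ℂ) * (z * deriv H z) - c) c
      rwa [sub_add_cancel] at this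
    rw [le_div_iff₀ h3]
    have h7 : M ≤ |M| := le_abs_self M
    have h8 : E * (1 - ρ ^ 2) ≤ |E| := by
      calc E * (1 - ρ ^ 2) ≤ |E| * (1 - ρ ^ 2) := by
            apply mul_le_mul_of_nonneg_right (le_abs_self E) (by nlinarith)
        _ ≤ |E| * 1 := by
            apply mul_le_mul_of_nonneg_left (by nlinarith) (abs_nonneg E)
        _ = |E| := mul_one _
    rw [h5] at h6
    nlinarith
  exact Complex.norm_le_of_forall_mem_frontier_norm_le isBounded_ball hdc hfr (subset_closure (mem_ball_zero_iff.2 (by linarith)))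

end Q90.SM
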