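import Mathlib
import Pool.Agent.Q90.SM.Stm

set_option autoImplicit false
open Complex Filter Topology Set Metric MeasureTheory

namespace Q90.SM

theorem mark_all : S_mark := by
  intro f hf hf0 a C L ha hL hC u hu
  have hpi := Real.pi_pos
  set g : ℝ → ℝ := fun θ => Real.exp (a * f θ ^ 2 / L) with hg
  have hgc : Continuous g := Real.continuous_exp.comp ((continuous_const.mul (hf.pow 2)).div_const _)
  have h1 : ∫⁻ θ in Ioc 0 (2 * Real.pi), ENNReal.ofReal (g θ) = ENNReal.ofReal (∫ θ in (0:ℝ)..(2 * Real.pi), g θ) := by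
    rw [intervalIntegral.integral_of_le (by positivity), ofReal_integral_eq_lintegral_ofReal]
    · exact (hgc.integrableOn_Icc).mono_set Ioc_subset_Icc_self
    · exact Eventually.of_forall fun θ => (Real.exp_pos _).le
  have h2 : ∫⁻ θ in Ioc 0 (2 * Real.pi), ENNReal.ofReal (g θ) ≤ ENNReal.ofReal (2 * Real.pi * C) := by
    rw [h1]
    apply ENNReal.ofReal_le_ofReal
    have h3 : ∫ θ in (0:ℝ)..(2 * Real.pi), g θ = 2 * Real.pi * ((1 / (2 * Real.pi)) * ∫ θ in (0:ℝ)..(2 * Real.pi), g θ) := by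
      field_simp
    rw [h3]
    gcongr
  have hm := mul_meas_ge_le_lintegral (μ := volume.restrict (Ioc 0 (2 * Real.pi))) (f := fun θ => ENNReal.ofReal (g θ))
    (hgc.measurable.ennreal_ofReal) (ENNReal.ofReal (Real.exp (a * u ^ 2 * L)))
  have h4 : volume {θ : ℝ | θ ∈ Ioc 0 (2 * Real.pi) ∧ u * L < f θ} ≤
      (volume.restrict (Ioc 0 (2 * Real.pi))) {x | ENNReal.ofReal (Real.exp (a * u ^ 2 * L)) ≤ ENNReal.ofReal (g x)} := by
    rw [Measure.restrict_apply (measurableSet_le measurable_const hgc.measurable.ennreal_ofReal)]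
    apply measure_mono
    rintro θ ⟨h5, h6⟩
    refine ⟨?_, h5⟩
    show ENNReal.ofReal (Real.exp (a * u ^ 2 * L)) ≤ ENNReal.ofReal (g θ)
    apply ENNReal.ofReal_le_ofReal
    apply Real.exp_le_exp.2
    rw [le_div_iff₀ hL]
    have h7 : (u * L) ^ 2 ≤ f θ ^ 2 := by gcongr
    nlinarith
  have he := Real.exp_pos (a * u ^ 2 * L)
  have h8 : ENNReal.ofReal (Real.exp (a * u ^ 2 * L)) * volume {θ : ℝ | θ ∈ Ioc 0 (2 * Real.pi) ∧ u * L < f θ} ≤
      ENNReal.ofReal (2 * Real.pi * C) := by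
    refine le_trans ?_ (hm.trans h2)
    gcongr
  have e : Real.exp (-a * u ^ 2 * L) = (Real.exp (a * u ^ 2 * L))⁻¹ := by
    rw [← Real.exp_neg]
    congr 1
    ring
  rw [e, ← div_eq_mul_inv, ENNReal.ofReal_div_of_pos he, ENNReal.le_div_iff_mul_le (Or.inl (by simpa using he)) (Or.inl ENNReal.ofReal_ne_top), mul_comm]
  exact h8

end Q90.SM
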