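import Mathlib
import Pool.Agent.Q90.SM.Stm

set_option autoImplicit false
open Complex Filter Topology Set Metric MeasureTheory

namespace Q90.SM

theorem mom : S_mom := by
  intro f hf hf0 L hL
  have hpi := Real.pi_pos
  have hpi0 : (0:ℝ) ≤ 2 * Real.pi := by positivity
  constructor
  · intro a C ha hC n
    have h1 : ∫ θ in (0:ℝ)..(2 * Real.pi), f θ ^ (2 * n) ≤ ∫ θ in (0:ℝ)..(2 * Real.pi), (n.factorial * (L / a) ^ n) * Real.exp (a * f θ ^ 2 / L) := by
      apply intervalIntegral.integral_mono_on hpi0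
      · exact (hf.pow _).intervalIntegrable _ _
      · exact (continuous_const.mul (Real.continuous_exp.comp ((continuous_const.mul (hf.pow 2)).div_const _))).intervalIntegrable _ _
      · intro θ _
        have h2 := Real.pow_div_factorial_le_exp (a * f θ ^ 2 / L) (by positivity) n
        rw [div_le_iff₀ (by positivity)] at h2
        have h3 : f θ ^ (2 * n) = (L / a) ^ n * (a * f θ ^ 2 / L) ^ n := by
          rw [← mul_pow, pow_mul]
          congr 1
          field_simp
        rw [h3]
        calc (L / a) ^ n * (a * f θ ^ 2 / L) ^ n ≤ (L / a) ^ n * (Real.exp (a * f θ ^ 2 / L) * n.factorial) := by gcongr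
          _ = _ := by ring
    rw [intervalIntegral.integral_const_mul] at h1
    calc (1 / (2 * Real.pi)) * ∫ θ in (0:ℝ)..(2 * Real.pi), f θ ^ (2 * n)
        ≤ (1 / (2 * Real.pi)) * ((n.factorial * (L / a) ^ n) * ∫ θ in (0:ℝ)..(2 * Real.pi), Real.exp (a * f θ ^ 2 / L)) := by gcongr
      _ = (n.factorial * (L / a) ^ n) * ((1 / (2 * Real.pi)) * ∫ θ in (0:ℝ)..(2 * Real.pi), Real.exp (a * f θ ^ 2 / L)) := by ring
      _ ≤ (n.factorial * (L / a) ^ n) * C := by gcongr
      _ = _ := by ring
  · intro a b K ha hab hK hm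
    have hb : 0 < b := by linarith
    obtain ⟨B, hB⟩ : ∃ B : ℝ, ∀ θ ∈ Icc (0:ℝ) (2 * Real.pi), ‖f θ‖ ≤ B :=
      isCompact_Icc.exists_bound_of_continuousOn (s := Icc (0:ℝ) (2 * Real.pi)) hf.continuousOn
    have key : HasSum (fun k : ℕ => ∫ θ in (0:ℝ)..(2 * Real.pi), (a * f θ ^ 2 / L) ^ k / (k.factorial : ℝ))
        (∫ θ in (0:ℝ)..(2 * Real.pi), Real.exp (a * f θ ^ 2 / L)) := by
      apply intervalIntegral.hasSum_integral_of_dominated_convergence (bound := fun (k : ℕ) (_ : ℝ) => (a * B ^ 2 / L) ^ k / (k.factorial : ℝ))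
      · intro k
        exact ((((continuous_const.mul (hf.pow 2)).div_const _).pow k).div_const _).aestronglyMeasurable
      · intro k
        apply Eventually.of_forall
        intro θ hθ
        rw [uIoc_of_le hpi0] at hθ
        have h2 := hB θ ⟨hθ.1.le, hθ.2⟩
        rw [Real.norm_eq_abs, abs_of_nonneg (hf0 θ)] at h2
        have h3 := hf0 θ
        rw [Real.norm_eq_abs, abs_of_nonneg (by positivity)]
        gcongr
      · apply Eventually.of_forall
        intro θ _
        exact (NormedSpace.expSeries_div_hasSum_exp (𝔸 := ℝ) (a * B ^ 2 / L)).summable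
      · simp
      · apply Eventually.of_forall
        intro θ _
        have := NormedSpace.expSeries_div_hasSum_exp (𝔸 := ℝ) (a * f θ ^ 2 / L)
        rw [Real.exp_eq_exp_ℝ]
        exact this
    have h2 := key.mul_left (1 / (2 * Real.pi))
    have hr0 : 0 ≤ a / b := by positivity
    have hr1 : a / b < 1 := by rw [div_lt_one hb]; exact hab
    have h3 : HasSum (fun k : ℕ => K * (a / b) ^ k) (K * (1 - a / b)⁻¹) := (hasSum_geometric_of_lt_one hr0 hr1).mul_left K
    have h4 := hasSum_le (fun k => ?_) h2 h3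
    · refine h4.trans (le_of_eq ?_)
      have : b - a ≠ 0 := by linarith
      have : 1 - a / b ≠ 0 := by linarith
      field_simp
    · have e1 : ∫ θ in (0:ℝ)..(2 * Real.pi), (a * f θ ^ 2 / L) ^ k / (k.factorial : ℝ) =
          (a / L) ^ k / (k.factorial : ℝ) * ∫ θ in (0:ℝ)..(2 * Real.pi), f θ ^ (2 * k) := by
        rw [← intervalIntegral.integral_const_mul]
        apply intervalIntegral.integral_congr
        intro θ _
        simp only
        rw [pow_mul, div_mul_eq_mul_div, ← mul_pow]
        congr 2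
        ring
      rw [e1]
      calc 1 / (2 * Real.pi) * ((a / L) ^ k / (k.factorial : ℝ) * ∫ θ in (0:ℝ)..(2 * Real.pi), f θ ^ (2 * k))
          = (a / L) ^ k / (k.factorial : ℝ) * ((1 / (2 * Real.pi)) * ∫ θ in (0:ℝ)..(2 * Real.pi), f θ ^ (2 * k)) := by ring
        _ ≤ (a / L) ^ k / (k.factorial : ℝ) * (K * k.factorial * (L / b) ^ k) := by
            exact mul_le_mul_of_nonneg_left (hm k) (by positivity)
        _ = K * (a / b) ^ k := by
            have h5 : (k.factorial : ℝ) ≠ 0 := by positivity
            rw [div_pow, div_pow, div_pow]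
            field_simp

end Q90.SM
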