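import Mathlib
import Pool.Agent.Q90.SM.Stm

set_option autoImplicit false
open Complex Filter Topology Set Metric MeasureTheory

namespace Q90.SM

theorem pick : S_pick := by
  intro C₀ R₀ hR hC V hV hV0 hb l k hl hk
  have hC2 : C₀ ^ 2 < R₀ ^ 2 := by
    rw [← sq_abs C₀]
    have := abs_nonneg C₀
    nlinarith
  set D : ℝ := R₀ ^ 2 - C₀ ^ 2 with hD
  have hD0 : 0 < D := by rw [hD]; linarith
  have hk0 : 0 ≤ k := (norm_nonneg l).trans hl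
  -- the denominator does not vanish
  have hden : ∀ m ∈ ball (0:ℂ) 1, (D : ℂ) + C₀ * V m ≠ 0 ∧ R₀ * ‖V m‖ ≤ ‖(D : ℂ) + C₀ * V m‖ := by
    intro m hm
    have h1 := hb m hm
    have h2 : ‖V m - C₀‖ ^ 2 ≤ R₀ ^ 2 := by gcongr
    have e1 : ‖V m - C₀‖ ^ 2 = ‖V m‖ ^ 2 - 2 * C₀ * (V m).re + C₀ ^ 2 := by
      rw [← Complex.normSq_eq_norm_sq, ← Complex.normSq_eq_norm_sq, Complex.normSq_sub]
      simp [Complex.normSq_ofReal]
      ring
    have e2 : ‖(D : ℂ) + C₀ * V m‖ ^ 2 = D ^ 2 + 2 * D * C₀ * (V m).re + C₀ ^ 2 * ‖V m‖ ^ 2 := by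
      rw [← Complex.normSq_eq_norm_sq, ← Complex.normSq_eq_norm_sq, Complex.normSq_add, Complex.normSq_mul]
      simp [Complex.normSq_ofReal]
      ring
    have h3 : (R₀ * ‖V m‖) ^ 2 ≤ ‖(D : ℂ) + C₀ * V m‖ ^ 2 := by
      rw [e2]
      have h4 : D * ‖V m‖ ^ 2 ≤ D * (2 * C₀ * (V m).re + D) := by
        apply mul_le_mul_of_nonneg_left _ hD0.le
        rw [hD]
        linarith
      have h5 : (R₀ * ‖V m‖) ^ 2 = D * ‖V m‖ ^ 2 + C₀ ^ 2 * ‖V m‖ ^ 2 := by rw [hD]; ring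
      rw [h5]
      nlinarith
    have h6 : R₀ * ‖V m‖ ≤ ‖(D : ℂ) + C₀ * V m‖ := by
      exact (pow_le_pow_iff_left₀ (by positivity) (norm_nonneg _) two_ne_zero).1 h3
    refine ⟨fun h7 => ?_, h6⟩
    rw [h7, norm_zero] at h6
    have h8 : V m = 0 := by
      have : ‖V m‖ ≤ 0 := by
        by_contra h9
        push Not at h9
        nlinarith
      exact norm_le_zero_iff.1 this
    rw [h8, mul_zero, add_zero] at h7
    have : D = 0 := by exact_mod_cast h7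
    linarith
  -- Schwarz lemma
  set g : ℂ → ℂ := fun m => (R₀ : ℂ) * V m / ((D : ℂ) + C₀ * V m) with hg
  have hgd : DifferentiableOn ℂ g (ball 0 1) := by
    apply (hV.const_mul _).div
    · exact (hV.const_mul _).const_add _
    · intro m hm
      exact (hden m hm).1
  have hg0 : g 0 = 0 := by simp only [hg]; rw [hV0]; simp
  have hgb : ∀ m ∈ ball (0:ℂ) 1, ‖g m‖ ≤ 1 := by
    intro m hm
    obtain ⟨h1, h2⟩ := hden m hm
    have h3 : 0 < ‖(D : ℂ) + C₀ * V m‖ := norm_pos_iff.2 h1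
    simp only [hg]
    rw [norm_div, norm_mul, Complex.norm_real, Real.norm_of_nonneg hR.le, div_le_one h3]
    exact h2
  have hl1 : ‖l‖ < 1 := by linarith
  have hS : ‖g l‖ ≤ ‖l‖ := by
    have hm : MapsTo g (ball 0 1) (closedBall 0 1) := fun m hm => mem_closedBall_zero_iff.2 (hgb m hm)
    have h := Complex.dist_le_div_mul_dist_of_mapsTo_ball (f := g) (c := 0) (R₁ := 1) (R₂ := 1) (z := l) hgd (by rw [hg0]; exact hm) (mem_ball_zero_iff.2 hl1)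
    rw [hg0] at h
    simpa using h
  have hlb := mem_ball_zero_iff.2 hl1
  obtain ⟨h1, h2⟩ := hden l hlb
  have h3 : 0 < ‖(D : ℂ) + C₀ * V l‖ := norm_pos_iff.2 h1
  have h4 : R₀ * ‖V l‖ ≤ k * ‖(D : ℂ) + C₀ * V l‖ := by
    have h5 : ‖g l‖ = R₀ * ‖V l‖ / ‖(D : ℂ) + C₀ * V l‖ := by
      simp only [hg]
      rw [norm_div, norm_mul, Complex.norm_real, Real.norm_of_nonneg hR.le]
    rw [h5, div_le_iff₀ h3] at hS
    exact hS.trans (by gcongr)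
  have e2 : ‖(D : ℂ) + C₀ * V l‖ ^ 2 = D ^ 2 + 2 * D * C₀ * (V l).re + C₀ ^ 2 * ‖V l‖ ^ 2 := by
    rw [← Complex.normSq_eq_norm_sq, ← Complex.normSq_eq_norm_sq, Complex.normSq_add, Complex.normSq_mul]
    simp [Complex.normSq_ofReal]
    ring
  have h6 : (R₀ * ‖V l‖) ^ 2 ≤ k ^ 2 * (D ^ 2 + 2 * D * C₀ * (V l).re + C₀ ^ 2 * ‖V l‖ ^ 2) := by
    rw [← e2, ← mul_pow]
    gcongr
  set Q : ℝ := R₀ ^ 2 - k ^ 2 * C₀ ^ 2 with hQ
  have hk2 : k ^ 2 < 1 := by nlinarith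
  have hQ0 : 0 < Q := by
    rw [hQ]
    nlinarith [sq_nonneg C₀]
  have e3 : ‖V l - ((k ^ 2 * D * C₀ / Q : ℝ) : ℂ)‖ ^ 2 = ‖V l‖ ^ 2 - 2 * (k ^ 2 * D * C₀ / Q) * (V l).re + (k ^ 2 * D * C₀ / Q) ^ 2 := by
    rw [← Complex.normSq_eq_norm_sq, ← Complex.normSq_eq_norm_sq, Complex.normSq_sub]
    simp only [Complex.normSq_ofReal, Complex.conj_ofReal, Complex.re_mul_ofReal]
    ring
  have h7 : ‖V l - ((k ^ 2 * D * C₀ / Q : ℝ) : ℂ)‖ ^ 2 ≤ (k * D * R₀ / Q) ^ 2 := by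
    rw [e3]
    have h8 : Q * ‖V l‖ ^ 2 - 2 * k ^ 2 * D * C₀ * (V l).re ≤ k ^ 2 * D ^ 2 := by
      rw [hQ]
      nlinarith
    have h9 : ‖V l‖ ^ 2 - 2 * (k ^ 2 * D * C₀ / Q) * (V l).re ≤ k ^ 2 * D ^ 2 / Q := by
      rw [le_div_iff₀ hQ0]
      have : (‖V l‖ ^ 2 - 2 * (k ^ 2 * D * C₀ / Q) * (V l).re) * Q = Q * ‖V l‖ ^ 2 - 2 * k ^ 2 * D * C₀ * (V l).re := by
        field_simp
      rw [this]
      exact h8
    have h10 : k ^ 2 * D ^ 2 / Q + (k ^ 2 * D * C₀ / Q) ^ 2 = (k * D * R₀ / Q) ^ 2 := by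
      field_simp
      rw [hQ]
      ring
    linarith
  exact (pow_le_pow_iff_left₀ (norm_nonneg _) (by positivity) two_ne_zero).1 h7

end Q90.SM
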