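import Mathlib
import Pool.Agent.Q90.SM.Asm

set_option autoImplicit false
open Complex Filter Topology Set Metric MeasureTheory

namespace Q90.SM

open Pool.Agent.TH325.SI (mn em la cont_cm mn_nonneg cm_mem norm_cm)

theorem deriv_FF {H : ℂ → ℂ} (hH : DifferentiableOn ℂ H (ball 0 1)) (t : ℂ) {v : ℂ} (hv : v ∈ ball (0:ℂ) 1) :
    deriv (FF t H) v = t / 2 * deriv H v * FF t H v := by
  have h1 : HasDerivAt H (deriv H v) v := (hH.differentiableAt (isOpen_ball.mem_nhds hv)).hasDerivAt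
  have h2 := ((h1.const_mul (t / 2)).cexp).deriv
  unfold FF
  rw [h2]
  ring

theorem star (h2 : S_ana2) (h3 : S_ana3) : S_star := by
  intro c M E H hM hE hH t s hs hs1
  have hpi := Real.pi_pos
  have hx0 : 0 < 1 - s ^ 2 := by nlinarith
  set x : ℝ := 1 - s ^ 2 with hx
  set A : ℝ := (M + E * x) ^ 2 - ‖c‖ ^ 2 with hA
  set F : ℂ → ℂ := FF t H with hF
  have hFd : DifferentiableOn ℂ F (ball 0 1) := dFF hH.1 t
  obtain ⟨hS2, _, _⟩ := h2 F hFd s hs hs1
  have hS1 := h3 F hFd s hs hs1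
  have hcF := cont_cm hFd hs hs1
  have hcF' := cont_cm (hFd.deriv isOpen_ball) hs hs1
  set Y : ℝ → ℂ := fun θ => (starRingEnd ℂ) (F (circleMap 0 s θ)) * (circleMap 0 s θ * deriv F (circleMap 0 s θ)) with hY
  have hcY : Continuous Y := (Complex.continuous_conj.comp hcF).mul ((continuous_circleMap 0 s).mul hcF')
  -- pointwise inequality
  have hpt : ∀ θ : ℝ, x ^ 2 * (s ^ 2 * ‖deriv F (circleMap 0 s θ)‖ ^ 2) ≤
      ‖t‖ ^ 2 / 4 * A * ‖F (circleMap 0 s θ)‖ ^ 2 + x * ((starRingEnd ℂ) (c * t) * Y θ).re := by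
    intro θ
    have hv := cm_mem hs hs1 θ
    have hn := norm_cm hs θ
    set v := circleMap 0 s θ with hvdef
    have h4 := hH.2.2 v hv
    rw [hn, ← hx] at h4
    have h5 : deriv F v = t / 2 * deriv H v * F v := deriv_FF hH.1 t hv
    set W : ℂ := (x : ℂ) * (v * deriv H v) with hW
    have hME : 0 ≤ M + E * x := by positivity
    have h6 : ‖W - c‖ ^ 2 ≤ (M + E * x) ^ 2 := by gcongr
    have h7 : ‖W - c‖ ^ 2 = ‖W‖ ^ 2 - 2 * ((starRingEnd ℂ) c * W).re + ‖c‖ ^ 2 := by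
      rw [← Complex.normSq_eq_norm_sq, ← Complex.normSq_eq_norm_sq, ← Complex.normSq_eq_norm_sq, Complex.normSq_sub]
      have : (W * (starRingEnd ℂ) c).re = ((starRingEnd ℂ) c * W).re := by rw [mul_comm]
      rw [this]
      ring
    have h8 : ‖W‖ ^ 2 ≤ A + 2 * ((starRingEnd ℂ) c * W).re := by
      rw [hA]; linarith
    -- multiply by ‖t‖² ‖F‖² / 4
    have e1 : x ^ 2 * (s ^ 2 * ‖deriv F v‖ ^ 2) = ‖t‖ ^ 2 / 4 * ‖F v‖ ^ 2 * ‖W‖ ^ 2 := by
      rw [h5, hW, norm_mul, norm_mul, norm_mul, norm_mul, norm_div, Complex.norm_real, Real.norm_of_nonneg hx0.le, hn]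
      norm_num
      ring
    have e2 : ((starRingEnd ℂ) (c * t) * Y θ).re * x = ‖t‖ ^ 2 / 2 * ‖F v‖ ^ 2 * ((starRingEnd ℂ) c * W).re := by
      have e3 : (starRingEnd ℂ) (c * t) * Y θ * (x:ℂ) = ((‖t‖ ^ 2 / 2 * ‖F v‖ ^ 2 : ℝ) : ℂ) * ((starRingEnd ℂ) c * W) := by
        simp only [hY]
        rw [← hvdef, h5, hW, map_mul]
        have e4 : (starRingEnd ℂ) t * t = ((‖t‖ ^ 2 : ℝ) : ℂ) := by rw [Complex.conj_mul']; push_cast; rfl
        have e5 : (starRingEnd ℂ) (F v) * F v = ((‖F v‖ ^ 2 : ℝ) : ℂ) := by rw [Complex.conj_mul']; push_cast; rfl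
        calc (starRingEnd ℂ) c * (starRingEnd ℂ) t * ((starRingEnd ℂ) (F v) * (v * (t / 2 * deriv H v * F v))) * (x:ℂ)
            = (((starRingEnd ℂ) t * t) / 2) * ((starRingEnd ℂ) (F v) * F v) * ((starRingEnd ℂ) c * ((x : ℂ) * (v * deriv H v))) := by ring
          _ = _ := by
            rw [e4, e5]
            push_cast
            ring
      have e6 := congrArg Complex.re e3
      rw [Complex.re_mul_ofReal, Complex.re_ofReal_mul] at e6
      exact e6
    have h9 : 0 ≤ ‖t‖ ^ 2 / 4 * ‖F v‖ ^ 2 := by positivity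
    have h10 := mul_le_mul_of_nonneg_left h8 h9
    rw [e1]
    nlinarith
  -- integrate
  have hI1 : ∫ θ in (0:ℝ)..(2 * Real.pi), x ^ 2 * (s ^ 2 * ‖deriv F (circleMap 0 s θ)‖ ^ 2) ≤
      ∫ θ in (0:ℝ)..(2 * Real.pi), (‖t‖ ^ 2 / 4 * A * ‖F (circleMap 0 s θ)‖ ^ 2 + x * ((starRingEnd ℂ) (c * t) * Y θ).re) := by
    apply intervalIntegral.integral_mono_on (by positivity)
    · exact (continuous_const.mul (continuous_const.mul (hcF'.norm.pow 2))).intervalIntegrable _ _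
    · exact ((continuous_const.mul (hcF.norm.pow 2)).add (continuous_const.mul (Complex.continuous_re.comp (continuous_const.mul hcY)))).intervalIntegrable _ _
    · intro θ _
      exact hpt θ
  have hI2 : ∫ θ in (0:ℝ)..(2 * Real.pi), (‖t‖ ^ 2 / 4 * A * ‖F (circleMap 0 s θ)‖ ^ 2 + x * ((starRingEnd ℂ) (c * t) * Y θ).re) =
      ‖t‖ ^ 2 / 4 * A * (∫ θ in (0:ℝ)..(2 * Real.pi), ‖F (circleMap 0 s θ)‖ ^ 2) + x * ((starRingEnd ℂ) (c * t) * ∫ θ in (0:ℝ)..(2 * Real.pi), Y θ).re := by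
    rw [intervalIntegral.integral_add, intervalIntegral.integral_const_mul, intervalIntegral.integral_const_mul]
    · congr 2
      rw [← intervalIntegral.integral_const_mul]
      have := Complex.reCLM.intervalIntegral_comp_comm (μ := volume) (a := 0) (b := 2 * Real.pi) (f := fun θ => (starRingEnd ℂ) (c * t) * Y θ)
        ((continuous_const.mul hcY).intervalIntegrable _ _)
      exact this
    · exact (continuous_const.mul (hcF.norm.pow 2)).intervalIntegrable _ _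
    · exact (continuous_const.mul (Complex.continuous_re.comp (continuous_const.mul hcY))).intervalIntegrable _ _
  have hI3 : ∫ θ in (0:ℝ)..(2 * Real.pi), x ^ 2 * (s ^ 2 * ‖deriv F (circleMap 0 s θ)‖ ^ 2) = x ^ 2 * (s ^ 2 * ∫ θ in (0:ℝ)..(2 * Real.pi), ‖deriv F (circleMap 0 s θ)‖ ^ 2) := by
    rw [intervalIntegral.integral_const_mul, intervalIntegral.integral_const_mul]
  have hYi : ∫ θ in (0:ℝ)..(2 * Real.pi), Y θ = ((2 * Real.pi * S1 F s : ℝ) : ℂ) := by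
    have h11 : ((2 * Real.pi : ℝ) : ℂ) ≠ 0 := by exact_mod_cast (by positivity : 2 * Real.pi ≠ 0)
    have h12 : ((2 * Real.pi : ℝ) : ℂ) * ((S1 F s : ℝ) : ℂ) = ∫ θ in (0:ℝ)..(2 * Real.pi), Y θ := by
      rw [hS1, ← mul_assoc, mul_inv_cancel₀ h11, one_mul]
    rw [← h12]
    push_cast
    ring
  rw [hI3, hI2, hYi, Complex.re_mul_ofReal, Complex.conj_re] at hI1
  have hmn : ∫ θ in (0:ℝ)..(2 * Real.pi), ‖F (circleMap 0 s θ)‖ ^ 2 = 2 * Real.pi * mn F s := by
    unfold mn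
    field_simp
  have hmn' : ∫ θ in (0:ℝ)..(2 * Real.pi), ‖deriv F (circleMap 0 s θ)‖ ^ 2 = 2 * Real.pi * mn (deriv F) s := by
    unfold mn
    field_simp
  rw [hmn, hmn'] at hI1
  rw [hS2]
  have h13 : (0:ℝ) < 2 * Real.pi := by positivity
  have h14 : (2 * Real.pi) * (x ^ 2 * (s ^ 2 * mn (deriv F) s)) ≤ (2 * Real.pi) * (‖t‖ ^ 2 / 4 * A * mn F s + x * (c * t).re * S1 F s) := by
    nlinarith
  exact le_of_mul_le_mul_left h14 h13

end Q90.SM
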