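import Mathlib
import Pool.Agent.Q90.SM.Star

set_option autoImplicit false
open Complex Filter Topology Set Metric MeasureTheory

namespace Q90.SM

open Pool.Agent.TH325.SI (mn em la cont_cm mn_nonneg cm_mem norm_cm mn_mono)

theorem exp_le_sq (x : ℝ) : Real.exp x ≤ x + Real.exp (x ^ 2) := by
  rcases le_or_gt |x| 1 with h | h
  · have h1 := Real.abs_exp_sub_one_sub_id_le h
    have h2 := (abs_le.1 h1).2
    have h3 := Real.add_one_le_exp (x ^ 2)
    linarith
  · rcases lt_abs.1 h with h1 | h1
    · have : Real.exp x ≤ Real.exp (x ^ 2) := Real.exp_le_exp.2 (by nlinarith)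
      linarith
    · have h2 : Real.exp x ≤ 1 := Real.exp_le_one_iff.2 (by linarith)
      have h3 := Real.add_one_le_exp (x ^ 2)
      nlinarith

theorem mean_zero {H : ℂ → ℂ} (hH : DifferentiableOn ℂ H (ball 0 1)) (h0 : H 0 = 0) {s : ℝ} (hs : 0 < s) (hs1 : s < 1) :
    ∫ θ in (0:ℝ)..(2 * Real.pi), H (circleMap 0 s θ) = 0 := by
  have hsub : closure (ball (0:ℂ) s) ⊆ ball 0 1 := by
    rw [closure_ball _ hs.ne']
    exact closedBall_subset_ball hs1
  have hd : DiffContOnCl ℂ H (ball 0 s) := (hH.mono hsub).diffContOnCl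
  have h1 := hd.circleIntegral_sub_inv_smul (mem_ball_self hs)
  rw [h0, smul_zero] at h1
  rw [circleIntegral] at h1
  have e : ∀ θ : ℝ, deriv (circleMap 0 s) θ • ((circleMap 0 s θ - 0)⁻¹ • H (circleMap 0 s θ)) = I * H (circleMap 0 s θ) := by
    intro θ
    have hne : circleMap 0 s θ ≠ 0 := by
      rw [← norm_pos_iff, norm_cm hs]
      exact hs
    rw [deriv_circleMap, sub_zero, smul_eq_mul, smul_eq_mul]
    field_simp
  simp only [e] at h1
  rw [intervalIntegral.integral_const_mul] at h1
  exact (mul_eq_zero.1 h1).resolve_left Complex.I_ne_zero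

theorem small (h2 : S_ana2) : S_small := by
  intro H hH h0 B s hB hs hs1 hBd t
  have hpi := Real.pi_pos
  have hFd := dFF hH t
  have hc := cont_cm hH hs hs1
  constructor
  · obtain ⟨h3, h4, h5⟩ := h2 (FF t H) hFd s hs hs1
    refine h5.trans ?_
    rw [h3]
    have h6 := mn_mono (M := ‖t‖ ^ 2 * (B ^ 2 / 4)) (hFd.deriv isOpen_ball) hFd hs hs1 (fun θ => by
      rw [deriv_FF hH t (cm_mem hs hs1 θ), norm_mul, norm_mul, norm_div]
      have := hBd (circleMap 0 s θ) (by rw [norm_cm hs])
      norm_num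
      calc (‖t‖ / 2 * ‖deriv H (circleMap 0 s θ)‖ * ‖FF t H (circleMap 0 s θ)‖) ^ 2
          ≤ (‖t‖ / 2 * B * ‖FF t H (circleMap 0 s θ)‖) ^ 2 := by gcongr
        _ = _ := by ring)
    have h7 : s ^ 2 ≤ 1 := by nlinarith
    have h8 := mn_nonneg (deriv (FF t H)) s
    nlinarith
  · have e1 : ∀ θ : ℝ, ‖FF t H (circleMap 0 s θ)‖ ^ 2 = Real.exp (t * H (circleMap 0 s θ)).re := by
      intro θ
      unfold FF
      rw [Complex.norm_exp, ← Real.exp_nat_mul]
      congr 1
      have : ((2:ℕ):ℝ) * (t / 2 * H (circleMap 0 s θ)).re = (((2:ℝ):ℂ) * (t / 2 * H (circleMap 0 s θ))).re := by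
        rw [Complex.re_ofReal_mul]
        norm_num
      rw [this]
      congr 1
      push_cast
      ring
    have hz := mean_zero hH h0 hs hs1
    have hcr : Continuous fun θ : ℝ => (t * H (circleMap 0 s θ)).re := Complex.continuous_re.comp (continuous_const.mul hc)
    have hz2 : ∫ θ in (0:ℝ)..(2 * Real.pi), (t * H (circleMap 0 s θ)).re = 0 := by
      have := Complex.reCLM.intervalIntegral_comp_comm (μ := volume) (a := 0) (b := 2 * Real.pi) (f := fun θ => t * H (circleMap 0 s θ))
        ((continuous_const.mul hc).intervalIntegrable _ _)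
      rw [intervalIntegral.integral_const_mul, hz, mul_zero] at this
      simpa using this
    have h9 : ∫ θ in (0:ℝ)..(2 * Real.pi), Real.exp (t * H (circleMap 0 s θ)).re ≤
        ∫ θ in (0:ℝ)..(2 * Real.pi), ((t * H (circleMap 0 s θ)).re + Real.exp (‖t‖ ^ 2 * B ^ 2)) := by
      apply intervalIntegral.integral_mono_on (by positivity)
      · exact (Real.continuous_exp.comp hcr).intervalIntegrable _ _
      · exact (hcr.add continuous_const).intervalIntegrable _ _
      · intro θ _
        refine (exp_le_sq _).trans ?_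
        gcongr
        have h10 : |(t * H (circleMap 0 s θ)).re| ≤ ‖t‖ * B := by
          refine (Complex.abs_re_le_norm _).trans ?_
          rw [norm_mul]
          have h11 := H_le hH h0 hs1 hBd (v := circleMap 0 s θ) (by rw [norm_cm hs])
          rw [norm_cm hs] at h11
          have h12 : B * s ≤ B := by nlinarith
          have := norm_nonneg t
          gcongr
          exact h11.trans h12
        calc (t * H (circleMap 0 s θ)).re ^ 2 = |(t * H (circleMap 0 s θ)).re| ^ 2 := (sq_abs _).symm
          _ ≤ (‖t‖ * B) ^ 2 := by gcongr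
          _ = _ := by ring
    rw [intervalIntegral.integral_add (hcr.intervalIntegrable _ _) (by simp), hz2, zero_add] at h9
    unfold mn
    simp only [e1]
    calc (2 * Real.pi)⁻¹ * ∫ θ in (0:ℝ)..(2 * Real.pi), Real.exp (t * H (circleMap 0 s θ)).re
        ≤ (2 * Real.pi)⁻¹ * ∫ θ in (0:ℝ)..(2 * Real.pi), Real.exp (‖t‖ ^ 2 * B ^ 2) := by
          apply mul_le_mul_of_nonneg_left h9 (by positivity)
      _ = _ := by
          simp
          field_simp

end Q90.SM
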