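import Mathlib
import Pool.Agent.Q90.SM.Fin
import Pool.Agent.Q90.SM.Eqv
import Pool.Agent.Q90.SM.Hp
import Pool.Agent.Q90.SM.Gauss
import Pool.Agent.Q90.SM.Gavg
import Pool.Agent.Q90.SM.Ext
import Pool.Agent.Q90.SM.Mark
import Pool.Agent.Q90.SM.Star
import Pool.Agent.Q90.SM.Small
import Pool.Agent.Q90.SM.Mom
import Pool.Agent.Q90.SM.Pick
import Pool.Agent.Q275.SM.Ana1
import Pool.Agent.Q275.SM.Ode
import Pool.Agent.Q275.SM.Inv
import Pool.Agent.Q216.SM.Ana2
import Pool.Agent.Q216.SM.Ana3
import Pool.Agent.Q216.SM.Tail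
import Pool.Agent.Q14.SM.Fam
import Pool.Agent.Q14.SM.Schw

/-! Everything together. -/

set_option autoImplicit false

namespace Q90.SM

theorem star_all : S_star := star Pool.Agent.Q216.SM.ana2 Pool.Agent.Q216.SM.ana3

theorem small_all : S_small := small Pool.Agent.Q216.SM.ana2

theorem gavg_all : S_gavg := gavg gauss

theorem expo_all : S_expo := expo Q275.SM.ana1 star_all Q275.SM.ode small_all hp

theorem key_all : S_key := key expo_all hp gavg_all

end Q90.SM
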