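import Mathlib
import Pool.Agent.Q90.SM.Stm

/-! The local version of the invariant disc. -/

set_option autoImplicit false
open Complex Filter Topology Set Metric MeasureTheory

namespace Q90.SM

open Pool.Agent.TH325.SI (la)

/-- **Absorption**: near the circle the solutions of the Riccati equation enter the disc after a bounded time. -/
def S_loc : Prop := ∀ (α k : ℝ), 0 < α → α < Real.pi / 4 → 0 ≤ k → k < Real.sin (2 * α) → ∀ s1 : ℝ, 0 < s1 → s1 < 1 →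
  ∃ s3 : ℝ, s1 ≤ s3 ∧ s3 < 1 ∧ ∀ W W' τ h : ℝ → ℂ,
    (∀ s : ℝ, s1 ≤ s → s < 1 → HasDerivAt W (W' s) s ∧ HasDerivAt h (W s / ((s * (1 - s ^ 2) : ℝ) : ℂ)) s ∧
      ‖τ s‖ ≤ 2 * k * s ^ 2 ∧
      ((s * (1 - s ^ 2) : ℝ) : ℂ) * W' s = -((1 + s ^ 2 : ℝ) : ℂ) * W s + W s ^ 2 / 2 + τ s ∧
      ‖W s - 2 * (s : ℂ) ^ 2‖ ≤ 4 * s ∧ ‖h s‖ ≤ la s) →
    ∀ s : ℝ, s3 ≤ s → s < 1 → ‖W s - ((2 * (1 - Real.cos α) : ℝ) : ℂ)‖ ≤ 2 * Real.sin α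

/-- the Riccati equation along the rays, with the exact size of `τ` -/
def S_schw2 : Prop := ∀ ψ h : ℂ → ℂ, IsSig ψ h → ∀ η : ℂ, ‖η‖ = 1 →
  ∃ W' τ : ℝ → ℂ, (∀ s : ℝ, 0 < s → s < 1 →
    HasDerivAt (fun s : ℝ => ((1 - s ^ 2 : ℝ) : ℂ) * ((s : ℂ) * η * deriv (Pool.Agent.W677.Mar.hat h 0) ((s : ℂ) * η))) (W' s) s ∧
    ‖τ s‖ = (1 - s ^ 2) ^ 2 / s ^ 2 * ‖schw ψ ((s : ℂ) * η)⁻¹‖ ∧
    ((s * (1 - s ^ 2) : ℝ) : ℂ) * W' s =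
      -((1 + s ^ 2 : ℝ) : ℂ) * (((1 - s ^ 2 : ℝ) : ℂ) * ((s : ℂ) * η * deriv (Pool.Agent.W677.Mar.hat h 0) ((s : ℂ) * η))) +
      (((1 - s ^ 2 : ℝ) : ℂ) * ((s : ℂ) * η * deriv (Pool.Agent.W677.Mar.hat h 0) ((s : ℂ) * η))) ^ 2 / 2 + τ s) ∧
  Tendsto (fun s : ℝ => ((1 - s ^ 2 : ℝ) : ℂ) * ((s : ℂ) * η * deriv (Pool.Agent.W677.Mar.hat h 0) ((s : ℂ) * η))) (𝓝[>] 0) (𝓝 0)

end Q90.SM
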