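import Mathlib
import Pool.Agent.Q14.SM.Schw
import Pool.Agent.Q90.SM.Stm2

/-! The Riccati equation with the exact size of `τ` (adapted from helper14's `schw_ray`). -/

set_option autoImplicit false
open Complex Filter Topology Set Metric MeasureTheory

namespace Q90.SM

open Pool.Agent.W677.Mar
open Q14.SM

/-- the job SCHW -/
theorem schw_ray2 : Q90.SM.S_schw2 := by
  intro ψ h hs η hη
  have hh := sig_hol hs
  set H := hat h 0 with hH
  have hHd : DifferentiableOn ℂ H (ball 0 1) := hat_diff hh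
  have hH1 : DifferentiableOn ℂ (deriv H) (ball 0 1) := hHd.deriv isOpen_ball
  have hη0 : η ≠ 0 := by
    rintro rfl
    rw [norm_zero] at hη
    exact zero_ne_one hη
  have hmem : ∀ s : ℝ, 0 < s → s < 1 → (s : ℂ) * η ∈ ball (0 : ℂ) 1 := by
    intro s h0 h1
    rw [mem_ball_zero_iff, norm_mul, hη, mul_one, Complex.norm_real, Real.norm_eq_abs,
      abs_of_pos h0]
    exact h1
  refine ⟨fun s => ((-(2 * s) : ℝ) : ℂ) * ((s : ℂ) * η * deriv H ((s : ℂ) * η)) +
      ((1 - s ^ 2 : ℝ) : ℂ) * (η * deriv H ((s : ℂ) * η) +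
        (s : ℂ) * η * (deriv (deriv H) ((s : ℂ) * η) * η)),
    fun s => ((1 - s ^ 2 : ℝ) : ℂ) ^ 2 * (((s : ℂ) * η)⁻¹ ^ 2 * schw ψ ((s : ℂ) * η)⁻¹), ?_, ?_⟩
  · intro s h0 h1
    have hv := hmem s h0 h1
    have hs0 : (s : ℂ) ≠ 0 := by exact_mod_cast h0.ne'
    have hv0 : (s : ℂ) * η ≠ 0 := mul_ne_zero hs0 hη0
    have hz := inv_ext hv hv0
    refine ⟨?_, ?_, ?_⟩
    · have e1 : HasDerivAt (fun s : ℝ => (s : ℂ) * η) η s := by
        have := (Complex.ofRealCLM.hasDerivAt (x := s)).mul_const η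
        simpa using this
      have e2 : HasDerivAt (fun s : ℝ => deriv H ((s : ℂ) * η))
          (deriv (deriv H) ((s : ℂ) * η) * η) s := by
        have h2 : HasDerivAt (deriv H) (deriv (deriv H) ((s : ℂ) * η)) ((s : ℂ) * η) :=
          (hH1.differentiableAt (isOpen_ball.mem_nhds hv)).hasDerivAt
        exact h2.comp s e1
      have e3 : HasDerivAt (fun s : ℝ => ((1 - s ^ 2 : ℝ) : ℂ)) (((-(2 * s)) : ℝ) : ℂ) s := by
        have h3 : HasDerivAt (fun s : ℝ => (1 - s ^ 2 : ℝ)) (-(2 * s)) s := by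
          have := (hasDerivAt_pow 2 s).const_sub 1
          simpa using this
        exact h3.ofReal_comp
      exact e3.mul (e1.mul e2)
    · have e2 : ‖((s : ℂ) * η)⁻¹‖ = s⁻¹ := by
        rw [norm_inv, norm_mul, hη, mul_one, Complex.norm_real, Real.norm_eq_abs, abs_of_pos h0]
      have e3 : ‖((1 - s ^ 2 : ℝ) : ℂ)‖ = 1 - s ^ 2 := by
        rw [Complex.norm_real, Real.norm_eq_abs, abs_of_pos]
        nlinarith
      rw [norm_mul, norm_pow, e3, norm_mul, norm_pow, e2]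
      field_simp
    · have f1 := (hat_hasDeriv hh hv hv0).deriv
      have f2 := hat_deriv2 hh hv hv0
      rw [← hH] at f1 f2
      dsimp only
      rw [schw_eq hs hz, f1, f2]
      have g1 : ((s : ℂ) * η) * ((s : ℂ) * η)⁻¹ = 1 := mul_inv_cancel₀ hv0
      obtain ⟨A, hA⟩ : ∃ A, A = deriv h ((s : ℂ) * η)⁻¹ := ⟨_, rfl⟩
      obtain ⟨B, hB⟩ : ∃ B, B = deriv (deriv h) ((s : ℂ) * η)⁻¹ := ⟨_, rfl⟩
      rw [← hA, ← hB]
      push_cast
      field_simp
      ring
  · have hcont : ContinuousAt (fun s : ℝ => ((1 - s ^ 2 : ℝ) : ℂ) *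
        ((s : ℂ) * η * deriv H ((s : ℂ) * η))) 0 := by
      have c1 : ContinuousAt (fun s : ℝ => (s : ℂ) * η) 0 := by fun_prop
      have c2 : ContinuousAt (deriv H) (((0 : ℝ) : ℂ) * η) := by
        have : ((0 : ℝ) : ℂ) * η ∈ ball (0 : ℂ) 1 := by simp
        exact (hH1.differentiableAt (isOpen_ball.mem_nhds this)).continuousAt
      have c3 : ContinuousAt (fun s : ℝ => deriv H ((s : ℂ) * η)) 0 :=
        ContinuousAt.comp (f := fun s : ℝ => (s : ℂ) * η) c2 c1
      have c4 : ContinuousAt (fun s : ℝ => ((1 - s ^ 2 : ℝ) : ℂ)) 0 := by fun_prop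
      exact c4.mul (c1.mul c3)
    have h2 := hcont.tendsto
    have h3 : ((1 - (0 : ℝ) ^ 2 : ℝ) : ℂ) * (((0 : ℝ) : ℂ) * η * deriv H (((0 : ℝ) : ℂ) * η)) = 0 := by
      simp
    rw [h3] at h2
    exact h2.mono_left nhdsWithin_le_nhds

end Q90.SM
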