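import Mathlib
import Pool.Agent.Q90.SM.Fin
import Pool.Agent.Q90.SM.Schw2

/-! Local version of the Schwarzian bound. -/

set_option autoImplicit false
open Complex Filter Topology Set Metric MeasureTheory

namespace Q90.SM

open Pool.Agent.TH325.SI (mn em la la_nonneg cm_mem norm_cm cont_cm mean_eq la_pos)
open Pool.Agent.H713R2 (tc)
open Pool.Agent.W677.Mar (hat Sg Hol kbound goluzin)

/-- a slightly larger `k` -/
theorem exists_k {a k : ℝ} (hk0 : 0 ≤ k) (hk1 : k < 1) (hak : a * (2 - 2 * Real.sqrt (1 - k ^ 2)) < 1) :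
    ∃ k' : ℝ, k < k' ∧ k' < 1 ∧ a * (2 - 2 * Real.sqrt (1 - k' ^ 2)) < 1 := by
  have hc : Continuous fun y : ℝ => a * (2 - 2 * Real.sqrt (1 - y ^ 2)) := by fun_prop
  have h1 : ∀ᶠ y in 𝓝[>] k, a * (2 - 2 * Real.sqrt (1 - y ^ 2)) < 1 :=
    (hc.tendsto k).eventually_lt_const hak |>.filter_mono nhdsWithin_le_nhds
  have h2 : ∀ᶠ y in 𝓝[>] k, y ∈ Ioo k 1 := Ioo_mem_nhdsGT hk1
  obtain ⟨y, hy1, hy2⟩ := (h1.and h2).exists
  exact ⟨y, hy2.1, hy2.2, hy1⟩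

set_option maxHeartbeats 1000000 in
theorem fin5loc (hx : S_ext) (hk : S_key) (hl : S_loc) (a k δ : ℝ) (ha : 0 < a) (hk0 : 0 ≤ k) (hk1 : k < 1) (hδ : 0 < δ)
    (hak : a * (2 - 2 * Real.sqrt (1 - k ^ 2)) < 1) : ∃ C : ℝ, ∀ R : ℝ, 1 < R →
    ∀ ψ h : ℂ → ℂ, IsSig ψ h → (∀ z : ℂ, 1 < ‖z‖ → ‖z‖ < 1 + δ → (‖z‖ ^ 2 - 1) ^ 2 * ‖schw ψ z‖ ≤ 2 * k) → marshall a R h ≤ C := by
  obtain ⟨k', hkk, hk1', hak'⟩ := exists_k hk0 hk1 hak
  have hk0' : 0 < k' := by linarith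
  set α : ℝ := Real.arcsin k' / 2 with hα
  have hα0 : 0 < α := by
    have := Real.arcsin_pos.2 hk0'
    rw [hα]; linarith
  have hα1 : α < Real.pi / 4 := by
    have : Real.arcsin k' < Real.pi / 2 := Real.arcsin_lt_pi_div_two.2 hk1'
    rw [hα]; linarith
  have hsin : Real.sin (2 * α) = k' := by
    rw [hα, mul_div_cancel₀ _ (two_ne_zero), Real.sin_arcsin (by linarith) hk1'.le]
  have hcos : Real.cos (2 * α) = Real.sqrt (1 - k' ^ 2) := by
    rw [hα, mul_div_cancel₀ _ (two_ne_zero), Real.cos_arcsin]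
  have hpi := Real.pi_pos
  have hs0 : 0 < Real.sin α := Real.sin_pos_of_pos_of_lt_pi hα0 (by linarith)
  have hM : (2 * Real.sin α) ^ 2 = 2 - 2 * Real.sqrt (1 - k' ^ 2) := by
    rw [← hcos, Real.cos_two_mul]
    have := Real.sin_sq_add_cos_sq α
    nlinarith
  set s1 : ℝ := (1 + (1 + δ)⁻¹) / 2 with hs1
  have hδ1 : 0 < 1 + δ := by linarith
  have hd0 : 0 < (1 + δ)⁻¹ := by positivity
  have hd1 : (1 + δ)⁻¹ < 1 := inv_lt_one_of_one_lt₀ (by linarith)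
  have hs10 : 0 < s1 := by rw [hs1]; linarith
  have hs11 : s1 < 1 := by rw [hs1]; linarith
  have hs1d : (1 + δ)⁻¹ < s1 := by rw [hs1]; linarith
  obtain ⟨s3, hs3, hs31, hloc⟩ := hl α k hα0 hα1 hk0 (by rw [hsin]; exact hkk) s1 hs10 hs11
  have hs30 : 0 < s3 := by linarith
  have hx3 : 0 < 1 - s3 ^ 2 := by nlinarith
  obtain ⟨C, hC⟩ := hk ((2 * (1 - Real.cos α) : ℝ) : ℂ) (2 * Real.sin α) (10 / (1 - s3 ^ 2)) a (by positivity) (by positivity) ha (by rw [hM]; exact hak')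
  refine ⟨C, fun R hR ψ h hS hw => transfer hx hS (hC (hat h 0) ?_) hR⟩
  have S := (hx ψ h hS).1
  refine ⟨S.dH, S.H0, fun v hv => ?_⟩
  have hn : ‖v‖ < 1 := mem_ball_zero_iff.1 hv
  have hn0 := norm_nonneg v
  have hcl := Real.cos_le_one α
  have hcg := Real.neg_one_le_cos α
  rcases lt_or_ge ‖v‖ s3 with hlt | hge
  · -- inside
    have h1 := kbound S hv
    have h2 : ‖((1 - ‖v‖ ^ 2 : ℝ) : ℂ) * (v * deriv (hat h 0) v)‖ ≤ 6 := by
      have h3 := norm_add_le (((1 - ‖v‖ ^ 2 : ℝ) : ℂ) * (v * deriv (hat h 0) v) - 2 * (‖v‖ : ℂ) ^ 2) (2 * (‖v‖ : ℂ) ^ 2)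
      rw [sub_add_cancel] at h3
      have h4 : ‖2 * (‖v‖ : ℂ) ^ 2‖ ≤ 2 := by
        rw [norm_mul, norm_pow, Complex.norm_real, norm_norm]
        norm_num
        nlinarith
      linarith
    have h5 : ‖((2 * (1 - Real.cos α) : ℝ) : ℂ)‖ ≤ 4 := by
      rw [Complex.norm_real, Real.norm_of_nonneg (by linarith)]
      linarith
    have h6 : 10 ≤ 10 / (1 - s3 ^ 2) * (1 - ‖v‖ ^ 2) := by
      rw [div_mul_eq_mul_div, le_div_iff₀ hx3]
      have : ‖v‖ ^ 2 ≤ s3 ^ 2 := by gcongr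
      nlinarith
    refine (norm_sub_le _ _).trans ?_
    linarith
  · have hv0' : 0 < ‖v‖ := by linarith
    set η : ℂ := v / ‖v‖ with hη
    have hη1 : ‖η‖ = 1 := by
      rw [hη, norm_div, Complex.norm_real, norm_norm, div_self hv0'.ne']
    obtain ⟨W', τ, h1, -⟩ := schw_ray2 ψ h hS η hη1
    have hmem : ∀ s : ℝ, 0 < s → s < 1 → (s : ℂ) * η ∈ ball (0 : ℂ) 1 ∧ ‖(s : ℂ) * η‖ = s := by
      intro s h0 h1
      have : ‖(s : ℂ) * η‖ = s := by
        rw [norm_mul, hη1, mul_one, Complex.norm_real, Real.norm_of_nonneg h0.le]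
      exact ⟨by rw [mem_ball_zero_iff, this]; exact h1, this⟩
    have h3 := hloc _ W' τ (fun s : ℝ => hat h 0 ((s : ℂ) * η)) (fun s hs hs' => by
      have hs0 : 0 < s := by linarith
      obtain ⟨hmb, hmn⟩ := hmem s hs0 hs'
      obtain ⟨g1, g2, g3⟩ := h1 s hs0 hs'
      have hxs : 0 < 1 - s ^ 2 := by nlinarith
      refine ⟨g1, ?_, ?_, g3, ?_, ?_⟩
      · have e1 : HasDerivAt (fun s : ℝ => (s : ℂ) * η) η s := by
          have := (Complex.ofRealCLM.hasDerivAt (x := s)).mul_const η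
          simpa using this
        have e2 : HasDerivAt (hat h 0) (deriv (hat h 0) ((s : ℂ) * η)) ((s : ℂ) * η) :=
          (S.dH.differentiableAt (isOpen_ball.mem_nhds hmb)).hasDerivAt
        have e3 := e2.comp s e1
        refine e3.congr_deriv ?_
        have n1 : (s : ℂ) ≠ 0 := by exact_mod_cast hs0.ne'
        have n2 : (1 : ℂ) - (s : ℂ) ^ 2 ≠ 0 := by exact_mod_cast hxs.ne'
        push_cast
        field_simp
      · rw [g2]
        have hz : ‖((s : ℂ) * η)⁻¹‖ = s⁻¹ := by rw [norm_inv, hmn]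
        have hz1 : 1 < ‖((s : ℂ) * η)⁻¹‖ := by rw [hz]; exact (one_lt_inv₀ hs0).2 hs'
        have hz2 : ‖((s : ℂ) * η)⁻¹‖ < 1 + δ := by
          rw [hz, inv_lt_comm₀ hs0 hδ1]
          exact lt_of_lt_of_le hs1d hs
        have h4 := hw _ hz1 hz2
        rw [hz] at h4
        have e4 : (1 - s ^ 2) ^ 2 / s ^ 2 * ‖schw ψ ((s : ℂ) * η)⁻¹‖ = ((s⁻¹ ^ 2 - 1) ^ 2 * ‖schw ψ ((s : ℂ) * η)⁻¹‖) * s ^ 2 := by
          field_simp
        rw [e4]
        exact mul_le_mul_of_nonneg_right h4 (sq_nonneg s)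
      · have h5 := kbound S hmb
        rw [hmn] at h5
        exact h5
      · have h6 := goluzin S hmb
        rw [hmn] at h6
        exact h6) ‖v‖ hge hn
    have e : (‖v‖ : ℂ) * η = v := by
      have : (‖v‖ : ℂ) ≠ 0 := by exact_mod_cast hv0'.ne'
      rw [hη]
      field_simp
    rw [e] at h3
    refine h3.trans ?_
    have : 0 ≤ 10 / (1 - s3 ^ 2) * (1 - ‖v‖ ^ 2) := by
      have : 0 < 1 - ‖v‖ ^ 2 := by nlinarith
      positivity
    linarith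

end Q90.SM
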