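import Pool.Agent.Q90.SM.All

/-!
# Comparison with a barrier, the exact exponent for small exponents `T ≤ T0`
-/

set_option autoImplicit false

open Complex Filter Topology Set Metric MeasureTheory

namespace Q90.SM

open Pool.Agent.TH325.SI (mn em la)

/-- the inequality at a touching point, for `γ T ≤ 1/4` -/
lemma touchT {M E C x0 x K0 T γ d δ : ℝ} (hM : 0 ≤ M) (hE : 0 ≤ E) (hC : 0 < C) (hx : 0 < x) (hxx : x ≤ x0)
    (hx0 : x0 ≤ 1 / 4) (h : C * x0 + (2 * M * E * x0 + E ^ 2 * x0 ^ 2) / 4 < δ)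
    (hK : 0 ≤ K0) (hT : 0 < T) (hγ : γ * T ≤ 1 / 4) (hd : d ≤ γ * T)
    (hδ : (M ^ 2 - γ ^ 2) / 4 + δ ≤ C * (1 - γ * T + C * T ^ 2)) :
    T ^ 2 / 4 * ((M + E * x) ^ 2 - γ ^ 2) + d * (T ^ 2 * (C + K0 * Real.sqrt x)) -
      (1 - x) * (T ^ 2 * (C + K0 * Real.sqrt x)) - (T ^ 2 * (C + K0 * Real.sqrt x)) ^ 2 +
      T ^ 2 * (K0 * (1 - x) * Real.sqrt x / 2) < 0 := by
  obtain ⟨r, hr⟩ : ∃ r, r = Real.sqrt x := ⟨_, rfl⟩
  have hr0 : 0 ≤ r := by rw [hr]; exact Real.sqrt_nonneg x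
  rw [← hr]
  obtain ⟨k, hk⟩ : ∃ k, k = K0 * r := ⟨_, rfl⟩
  have hk0 : 0 ≤ k := by rw [hk]; exact mul_nonneg hK hr0
  have hb0 : 0 < C + k := by linarith
  have h1 : d * (C + k) ≤ γ * T * (C + k) := mul_le_mul_of_nonneg_right hd hb0.le
  have h3 : (2 * M * E * x + E ^ 2 * x ^ 2) / 4 + C * x ≤
      C * x0 + (2 * M * E * x0 + E ^ 2 * x0 ^ 2) / 4 := by
    have a1 : 2 * M * E * x ≤ 2 * M * E * x0 := mul_le_mul_of_nonneg_left hxx (by positivity)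
    have a2 : E ^ 2 * x ^ 2 ≤ E ^ 2 * x0 ^ 2 :=
      mul_le_mul_of_nonneg_left (pow_le_pow_left₀ hx.le hxx 2) (by positivity)
    have a3 : C * x ≤ C * x0 := mul_le_mul_of_nonneg_left hxx hC.le
    linarith
  have h4 : 0 ≤ k * (1 - x - γ * T - (1 - x) / 2) := mul_nonneg hk0 (by linarith)
  have h5 : 1 / 4 * ((M + E * x) ^ 2 - γ ^ 2) + d * (C + k) - (1 - x) * (C + k) - T ^ 2 * (C + k) ^ 2 +
      k * (1 - x) / 2 < 0 := by
    have h6 : 0 ≤ T ^ 2 * (2 * C * k + k ^ 2) := by positivity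
    nlinarith
  have h6 : T ^ 2 / 4 * ((M + E * x) ^ 2 - γ ^ 2) + d * (T ^ 2 * (C + K0 * r)) - (1 - x) * (T ^ 2 * (C + K0 * r)) -
      (T ^ 2 * (C + K0 * r)) ^ 2 + T ^ 2 * (K0 * (1 - x) * r / 2) =
      T ^ 2 * (1 / 4 * ((M + E * x) ^ 2 - γ ^ 2) + d * (C + k) - (1 - x) * (C + k) - T ^ 2 * (C + k) ^ 2 +
      k * (1 - x) / 2) := by rw [hk]; ring
  rw [h6]
  exact mul_neg_of_pos_of_neg (by positivity) h5

/-- the barrier -/
lemma barrierT {M E C s0 x0 K0 δ : ℝ} (hM : 0 ≤ M) (hE : 0 ≤ E) (hC : 0 < C) (hs0 : 0 < s0)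
    (hs1 : s0 < 1) (hx0 : x0 = 1 - s0 ^ 2) (hx4 : x0 ≤ 1 / 4)
    (h : C * x0 + (2 * M * E * x0 + E ^ 2 * x0 ^ 2) / 4 < δ)
    (hK : 0 ≤ K0) {T γ d : ℝ} (hT : 0 < T) (hγ : γ * T ≤ 1 / 4) (hd : d ≤ γ * T)
    (hδ : (M ^ 2 - γ ^ 2) / 4 + δ ≤ C * (1 - γ * T + C * T ^ 2)) (P N1 N2 : ℝ → ℝ)
    (hP : ∀ s : ℝ, s0 ≤ s → s < 1 → 0 < P s ∧ HasDerivAt P (2 / s * N1 s) s ∧
      HasDerivAt N1 (2 / s * N2 s) s ∧
      (1 - s ^ 2) ^ 2 * N2 s ≤ T ^ 2 / 4 * ((M + E * (1 - s ^ 2)) ^ 2 - γ ^ 2) * P s +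
        (1 - s ^ 2) * d * N1 s)
    (hB : N1 s0 ≤ T ^ 2 * K0 * P s0) (s : ℝ) (g0 : s0 ≤ s) (g1 : s < 1) :
    (1 - s ^ 2) * N1 s / P s ≤ T ^ 2 * (C + K0 * Real.sqrt (1 - s ^ 2)) := by
  have hpos : ∀ y : ℝ, s0 ≤ y → y < 1 → 0 < y ∧ 0 < 1 - y ^ 2 ∧ 1 - y ^ 2 ≤ x0 := by
    intro y h1 h2
    have h3 : 0 < y := lt_of_lt_of_le hs0 h1
    refine ⟨h3, by nlinarith, ?_⟩
    rw [hx0]
    have := pow_le_pow_left₀ hs0.le h1 2
    linarith
  have hq : ∀ y : ℝ, s0 ≤ y → y < 1 → HasDerivAt (fun s => (1 - s ^ 2) * N1 s / P s)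
      (((-(2 * y)) * N1 y + (1 - y ^ 2) * (2 / y * N2 y)) / P y -
        (1 - y ^ 2) * N1 y * (2 / y * N1 y) / P y ^ 2) y := by
    intro y h1 h2
    obtain ⟨p1, p2, p3, _⟩ := hP y h1 h2
    have h4 : HasDerivAt (fun t : ℝ => 1 - t ^ 2) (-(2 * y)) y := by
      have := (hasDerivAt_pow 2 y).const_sub 1
      simpa using this
    have h5 := (h4.mul p3).div p2 p1.ne'
    refine h5.congr_deriv ?_
    have h6 : ((fun t : ℝ => 1 - t ^ 2) * N1 : ℝ → ℝ) y = (1 - y ^ 2) * N1 y := rfl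
    rw [h6]
    field_simp
  have hb : ∀ y : ℝ, s0 ≤ y → y < 1 → HasDerivAt
      (fun s => T ^ 2 * (C + K0 * Real.sqrt (1 - s ^ 2)))
      (T ^ 2 * (K0 * (-(2 * y) / (2 * Real.sqrt (1 - y ^ 2))))) y := by
    intro y h1 h2
    obtain ⟨_, p2, _⟩ := hpos y h1 h2
    have h4 : HasDerivAt (fun t : ℝ => 1 - t ^ 2) (-(2 * y)) y := by
      have := (hasDerivAt_pow 2 y).const_sub 1
      simpa using this
    exact (((h4.sqrt p2.ne').const_mul K0).const_add C).const_mul (T ^ 2)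
  refine image_le_of_deriv_right_lt_deriv_boundary' (a := s0) (b := s)
    (f := fun s => (1 - s ^ 2) * N1 s / P s)
    (f' := fun y => ((-(2 * y)) * N1 y + (1 - y ^ 2) * (2 / y * N2 y)) / P y -
        (1 - y ^ 2) * N1 y * (2 / y * N1 y) / P y ^ 2)
    (B := fun s => T ^ 2 * (C + K0 * Real.sqrt (1 - s ^ 2)))
    (B' := fun y => T ^ 2 * (K0 * (-(2 * y) / (2 * Real.sqrt (1 - y ^ 2))))) ?_ ?_ ?_ ?_ ?_ ?_
    (right_mem_Icc.mpr g0)
  · intro y hy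
    exact (hq y hy.1 (lt_of_le_of_lt hy.2 g1)).continuousAt.continuousWithinAt
  · intro y hy
    exact (hq y hy.1 (hy.2.trans g1)).hasDerivWithinAt
  · obtain ⟨p1, _⟩ := hP s0 le_rfl hs1
    obtain ⟨_, p3, _⟩ := hpos s0 le_rfl hs1
    show (1 - s0 ^ 2) * N1 s0 / P s0 ≤ _
    rw [div_le_iff₀ p1]
    have hsq : 1 - s0 ^ 2 ≤ Real.sqrt (1 - s0 ^ 2) := by
      have h1 : 1 - s0 ^ 2 ≤ 1 := by nlinarith
      have h2 := Real.sqrt_nonneg (1 - s0 ^ 2)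
      have h3 := Real.sq_sqrt p3.le
      have h4 : Real.sqrt (1 - s0 ^ 2) ≤ 1 := Real.sqrt_le_one.mpr h1
      nlinarith
    calc (1 - s0 ^ 2) * N1 s0 ≤ (1 - s0 ^ 2) * (T ^ 2 * K0 * P s0) :=
          mul_le_mul_of_nonneg_left hB p3.le
      _ ≤ Real.sqrt (1 - s0 ^ 2) * (T ^ 2 * K0 * P s0) :=
          mul_le_mul_of_nonneg_right hsq (by positivity)
      _ ≤ T ^ 2 * (C + K0 * Real.sqrt (1 - s0 ^ 2)) * P s0 := by
          have : 0 ≤ T ^ 2 * C * P s0 := by positivity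
          linarith
  · intro y hy
    exact (hb y hy.1 (lt_of_le_of_lt hy.2 g1)).continuousAt.continuousWithinAt
  · intro y hy
    exact (hb y hy.1 (hy.2.trans g1)).hasDerivWithinAt
  · intro y hy he
    have hy1 : y < 1 := hy.2.trans g1
    obtain ⟨p1, _, _, p4⟩ := hP y hy.1 hy1
    obtain ⟨h1, h2, h3⟩ := hpos y hy.1 hy1
    have ht := touchT (x := 1 - y ^ 2) hM hE hC h2 h3 hx4 h hK hT hγ hd hδ
    obtain ⟨x, hx⟩ : ∃ x, x = 1 - y ^ 2 := ⟨_, rfl⟩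
    have hy2 : y ^ 2 = 1 - x := by rw [hx]; ring
    have he' : (1 - y ^ 2) * N1 y / P y = T ^ 2 * (C + K0 * Real.sqrt (1 - y ^ 2)) := he
    rw [← hx] at ht p4 he' h2
    show ((-(2 * y)) * N1 y + (1 - y ^ 2) * (2 / y * N2 y)) / P y -
        (1 - y ^ 2) * N1 y * (2 / y * N1 y) / P y ^ 2 <
        T ^ 2 * (K0 * (-(2 * y) / (2 * Real.sqrt (1 - y ^ 2))))
    rw [← hx]
    obtain ⟨q, hqq⟩ : ∃ q, q = T ^ 2 * (C + K0 * Real.sqrt x) := ⟨_, rfl⟩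
    rw [← hqq] at ht he'
    obtain ⟨r, hr⟩ : ∃ r, r = Real.sqrt x := ⟨_, rfl⟩
    have hr0 : 0 < r := by rw [hr]; exact Real.sqrt_pos.mpr h2
    have hr2 : r * r = x := by rw [hr]; exact Real.mul_self_sqrt h2.le
    rw [← hr] at ht ⊢
    have hN1 : N1 y = q * P y / x := by
      rw [← he']
      field_simp
    have e1 : ((-(2 * y)) * N1 y + x * (2 / y * N2 y)) / P y -
        x * N1 y * (2 / y * N1 y) / P y ^ 2 =
        2 / (y * x) * (-(y ^ 2 * q) + x ^ 2 * N2 y / P y - q ^ 2) := by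
      rw [hN1]
      field_simp
    have e2 : T ^ 2 * (K0 * (-(2 * y) / (2 * r))) =
        2 / (y * x) * (-(T ^ 2 * (K0 * (1 - x) * r / 2))) := by
      rw [← hy2, ← hr2]
      field_simp
    rw [e1, e2]
    refine mul_lt_mul_of_pos_left ?_ (by positivity)
    have h5 : x ^ 2 * N2 y / P y ≤ T ^ 2 / 4 * ((M + E * x) ^ 2 - γ ^ 2) + d * q := by
      rw [div_le_iff₀ p1]
      refine p4.trans (le_of_eq ?_)
      rw [hN1]
      field_simp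
    rw [hy2]
    linarith

/-- the comparison lemma with the exact exponent for `T ≤ T0` -/
theorem odeT (M E C δ : ℝ) (hM : 0 ≤ M) (hE : 0 ≤ E) (hC : 0 < C) (hδ0 : 0 < δ) : ∃ s0 : ℝ, 0 < s0 ∧ s0 < 1 ∧
    ∀ B : ℝ, 0 ≤ B → ∃ K : ℝ, 0 ≤ K ∧ ∀ T γ d : ℝ, 0 < T → 0 ≤ γ → γ * T ≤ 1 / 4 → d ≤ γ * T →
    (M ^ 2 - γ ^ 2) / 4 + δ ≤ C * (1 - γ * T + C * T ^ 2) → ∀ P N1 N2 : ℝ → ℝ,
    (∀ s : ℝ, s0 ≤ s → s < 1 → 0 < P s ∧ HasDerivAt P (2 / s * N1 s) s ∧ HasDerivAt N1 (2 / s * N2 s) s ∧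
      (1 - s ^ 2) ^ 2 * N2 s ≤ T ^ 2 / 4 * ((M + E * (1 - s ^ 2)) ^ 2 - γ ^ 2) * P s + (1 - s ^ 2) * d * N1 s) →
    N1 s0 ≤ T ^ 2 * B * P s0 →
    ∀ s : ℝ, s0 ≤ s → s < 1 → P s ≤ P s0 * Real.exp (T ^ 2 * (C * la s + K)) := by
  obtain ⟨L, hL⟩ : ∃ L, L = C + M * E / 2 + E ^ 2 / 4 + 1 := ⟨_, rfl⟩
  have hL0 : 0 < L := by rw [hL]; positivity
  obtain ⟨x0, hx0⟩ : ∃ x0, x0 = min (1 / 4) (δ / (2 * L)) := ⟨_, rfl⟩
  have hx00 : 0 < x0 := by rw [hx0]; exact lt_min (by norm_num) (by positivity)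
  have hx4 : x0 ≤ 1 / 4 := by rw [hx0]; exact min_le_left _ _
  have hxL : x0 * L ≤ δ / 2 := by
    have h1 : x0 ≤ δ / (2 * L) := by rw [hx0]; exact min_le_right _ _
    rw [le_div_iff₀ (by positivity)] at h1
    linarith
  obtain ⟨s0, hs0⟩ : ∃ s0, s0 = Real.sqrt (1 - x0) := ⟨_, rfl⟩
  have hs2 : s0 ^ 2 = 1 - x0 := by rw [hs0]; exact Real.sq_sqrt (by linarith)
  have hs00 : 0 < s0 := by rw [hs0]; exact Real.sqrt_pos.mpr (by linarith)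
  have hs01 : s0 < 1 := by nlinarith
  have h : C * x0 + (2 * M * E * x0 + E ^ 2 * x0 ^ 2) / 4 < δ := by
    have h1 : x0 ^ 2 ≤ x0 := by nlinarith
    have h2 : E ^ 2 * x0 ^ 2 ≤ E ^ 2 * x0 := mul_le_mul_of_nonneg_left h1 (by positivity)
    have h3 : C * x0 + (2 * M * E * x0 + E ^ 2 * x0) / 4 = x0 * L - x0 := by rw [hL]; ring
    linarith
  refine ⟨s0, hs00, hs01, fun B hB => ⟨2 * C / s0 + 2 * B / s0 ^ 2, by positivity, ?_⟩⟩
  intro T γ d hT hγ hγT hd hCT P N1 N2 hP hB0 s g0 g1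
  obtain ⟨Φ, hΦ⟩ : ∃ Φ : ℝ → ℝ, Φ = fun y => Real.log (P y) - T ^ 2 * (C * la y +
      2 * C / s0 * y - 2 * B / s0 ^ 2 * Real.sqrt (1 - y ^ 2)) := ⟨_, rfl⟩
  have hΦd : ∀ y : ℝ, s0 ≤ y → y < 1 → HasDerivAt Φ (2 / y * N1 y / P y -
      T ^ 2 * (C * (2 * y / (1 - y ^ 2)) + 2 * C / s0 -
        2 * B / s0 ^ 2 * (-(2 * y) / (2 * Real.sqrt (1 - y ^ 2))))) y := by
    intro y h1 h2
    have hy0 : 0 < y := lt_of_lt_of_le hs00 h1
    have hy2 : 0 < 1 - y ^ 2 := by nlinarith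
    obtain ⟨p1, p2, _⟩ := hP y h1 h2
    have h4 : HasDerivAt (fun t : ℝ => 1 - t ^ 2) (-(2 * y)) y := by
      have := (hasDerivAt_pow 2 y).const_sub 1
      simpa using this
    have h5 := (Pool.Agent.TH325.SI.la_deriv hy0.le h2).const_mul C
    have h6 := (hasDerivAt_id y).const_mul (2 * C / s0)
    have h7 := (h4.sqrt hy2.ne').const_mul (2 * B / s0 ^ 2)
    have h8 := (p2.log p1.ne').sub (((h5.add h6).sub h7).const_mul (T ^ 2))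
    rw [hΦ]
    refine h8.congr_deriv ?_
    rw [mul_one]
  have hanti : AntitoneOn Φ (Icc s0 s) := by
    refine antitoneOn_of_deriv_nonpos (convex_Icc _ _) ?_ ?_ ?_
    · intro y hy
      exact (hΦd y hy.1 (lt_of_le_of_lt hy.2 g1)).continuousAt.continuousWithinAt
    · intro y hy
      rw [interior_Icc] at hy
      exact (hΦd y hy.1.le (hy.2.trans g1)).differentiableAt.differentiableWithinAt
    · intro y hy
      rw [interior_Icc] at hy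
      have hy1 : y < 1 := hy.2.trans g1
      have hy0 : 0 < y := hs00.trans hy.1
      have hy2 : 0 < 1 - y ^ 2 := by nlinarith
      obtain ⟨p1, _⟩ := hP y hy.1.le hy1
      rw [(hΦd y hy.1.le hy1).deriv]
      have hb := barrierT hM hE hC hs00 hs01 (by rw [hs2]; ring) hx4 h hB hT hγT hd hCT P N1 N2 hP hB0 y
        hy.1.le hy1
      obtain ⟨r, hr⟩ : ∃ r, r = Real.sqrt (1 - y ^ 2) := ⟨_, rfl⟩
      have hr0 : 0 < r := by rw [hr]; exact Real.sqrt_pos.mpr hy2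
      have hr2 : r * r = 1 - y ^ 2 := by rw [hr]; exact Real.mul_self_sqrt hy2.le
      rw [← hr] at hb ⊢
      have e1 : 2 / y * N1 y / P y = 2 / (y * (1 - y ^ 2)) * ((1 - y ^ 2) * N1 y / P y) := by
        field_simp
      have h9 : 2 / (y * (1 - y ^ 2)) * ((1 - y ^ 2) * N1 y / P y) ≤
          2 / (y * (1 - y ^ 2)) * (T ^ 2 * (C + B * r)) :=
        mul_le_mul_of_nonneg_left hb (by positivity)
      have h10 : 2 / (y * (1 - y ^ 2)) * (T ^ 2 * (C + B * r)) =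
          T ^ 2 * (C * (2 * y / (1 - y ^ 2)) + 2 * C / y + 2 * B / (y ^ 2) * (y / r)) := by
        rw [← hr2]
        field_simp
        have : y ^ 2 = 1 - r ^ 2 := by rw [sq r, hr2]; ring
        rw [this]
        ring
      have h11 : 2 * C / y ≤ 2 * C / s0 :=
        div_le_div_of_nonneg_left (by positivity) hs00 hy.1.le
      have h12 : 2 * B / y ^ 2 ≤ 2 * B / s0 ^ 2 :=
        div_le_div_of_nonneg_left (by positivity) (by positivity)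
          (pow_le_pow_left₀ hs00.le hy.1.le 2)
      have h13 : 2 * B / y ^ 2 * (y / r) ≤ 2 * B / s0 ^ 2 * (y / r) :=
        mul_le_mul_of_nonneg_right h12 (by positivity)
      have h14 : -(2 * B / s0 ^ 2 * (-(2 * y) / (2 * r))) = 2 * B / s0 ^ 2 * (y / r) := by
        field_simp
      have hT2 : 0 < T ^ 2 := by positivity
      have h15 : T ^ 2 * (C * (2 * y / (1 - y ^ 2)) + 2 * C / y + 2 * B / (y ^ 2) * (y / r)) ≤
          T ^ 2 * (C * (2 * y / (1 - y ^ 2)) + 2 * C / s0 -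
            2 * B / s0 ^ 2 * (-(2 * y) / (2 * r))) := by
        refine mul_le_mul_of_nonneg_left ?_ hT2.le
        linarith
      rw [e1]
      linarith
  have hfin := hanti (left_mem_Icc.mpr g0) (right_mem_Icc.mpr g0) g0
  obtain ⟨p1, _⟩ := hP s0 le_rfl hs01
  obtain ⟨p2, _⟩ := hP s g0 g1
  have hs0' : 0 < s := lt_of_lt_of_le hs00 g0
  rw [hΦ] at hfin
  have hfin' : Real.log (P s) - T ^ 2 * (C * la s + 2 * C / s0 * s -
      2 * B / s0 ^ 2 * Real.sqrt (1 - s ^ 2)) ≤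
      Real.log (P s0) - T ^ 2 * (C * la s0 + 2 * C / s0 * s0 -
      2 * B / s0 ^ 2 * Real.sqrt (1 - s0 ^ 2)) := hfin
  have hla0 := Pool.Agent.TH325.SI.la_nonneg hs00 hs01
  have hr1 : Real.sqrt (1 - s0 ^ 2) ≤ 1 := Real.sqrt_le_one.mpr (by nlinarith)
  have hr2 := Real.sqrt_nonneg (1 - s ^ 2)
  have hT2 : 0 < T ^ 2 := by positivity
  have h16 : Real.log (P s) ≤ Real.log (P s0) +
      T ^ 2 * (C * la s + (2 * C / s0 + 2 * B / s0 ^ 2)) := by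
    have a1 : 0 ≤ T ^ 2 * (C * la s0) := by positivity
    have a2 : 0 ≤ T ^ 2 * (2 * C / s0 * s0) := by positivity
    have a3 : T ^ 2 * (2 * C / s0 * s) ≤ T ^ 2 * (2 * C / s0) := by
      refine mul_le_mul_of_nonneg_left ?_ hT2.le
      have : 0 ≤ 2 * C / s0 := by positivity
      nlinarith
    have a4 : T ^ 2 * (2 * B / s0 ^ 2 * Real.sqrt (1 - s0 ^ 2)) ≤ T ^ 2 * (2 * B / s0 ^ 2) := by
      refine mul_le_mul_of_nonneg_left ?_ hT2.le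
      have : 0 ≤ 2 * B / s0 ^ 2 := by positivity
      nlinarith
    have a5 : 0 ≤ T ^ 2 * (2 * B / s0 ^ 2 * Real.sqrt (1 - s ^ 2)) := by positivity
    nlinarith
  have h17 := Real.exp_le_exp.mpr h16
  rw [Real.exp_log p2, Real.exp_add, Real.exp_log p1] at h17
  exact h17

end Q90.SM
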